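import Pool.Agent.U582.SN.Lim2

set_option autoImplicit false
set_option linter.unusedSectionVars false

open MeasureTheory Set Filter Topology Metric
open scoped ENNReal NNReal ContDiff

namespace Pool.Agent.U582.SN

variable {E : Type*} [NormedAddCommGroup E] [InnerProductSpace ℝ E] [FiniteDimensional ℝ E]
  [MeasurableSpace E] [BorelSpace E]

/-- eigenfunctions in the weak sense, with values zero outside `Ω` -/
structure Eig (Ω : Set E) (lam : ℝ) (u : E → ℝ) (G : E → E) : Prop where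
  appr : Appr Ω u G
  eq : ∀ ψ, Tst Ω ψ → ∫ x, inner ℝ (G x) (gradient ψ x) = lam * ∫ x, u x * ψ x

lemma Appr.mono {S S' : Set E} {w : E → ℝ} {g : E → E} (h : Appr S w g) (hS : S ⊆ S') :
    Appr S' w g := by
  obtain ⟨h1, h2, φ, h3, h4, h5⟩ := h
  exact ⟨h1, h2, φ, fun k => (h3 k).mono hS, h4, h5⟩

lemma eLp_const_zero {V : Type*} [NormedAddCommGroup V] (f : E → V) :
    Tendsto (fun _ : ℕ => eLpNorm (fun x => f x - f x) 2 volume) atTop (𝓝 0) := by
  simp

lemma Eig.ext {Ω : Set E} {lam : ℝ} {u : E → ℝ} {G : E → E} (h : Eig Ω lam u G)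
    {w : E → ℝ} {g : E → E} (hw : Appr Ω w g) :
    ∫ x, inner ℝ (G x) (g x) = lam * ∫ x, u x * w x := by
  obtain ⟨h1, h2, φ, h3, h4, h5⟩ := hw
  have t1 := tendsto_inner (fun _ => h.appr.2.1) h.appr.2.1 (fun k => (h3 k).memLp_grad) h2
    (eLp_const_zero G) h5
  have t2 := tendsto_inner (fun _ => h.appr.1) h.appr.1 (fun k => (h3 k).memLp) h1
    (eLp_const_zero u) h4
  have t3 := t2.const_mul lam
  have e : ∀ k, ∫ x, inner ℝ (G x) (gradient (φ k) x) = lam * ∫ x, inner ℝ (u x) (φ k x) := by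
    intro k
    rw [h.eq _ (h3 k)]
    congr 2
    ext x
    simp [mul_comm]
  simp only [e] at t1
  have h6 := tendsto_nhds_unique t1 t3
  rw [h6]
  congr 2
  ext x
  simp [mul_comm]

lemma int_inner {f g : E → E} (hf : MemLp f 2 volume) (hg : MemLp g 2 volume) :
    Integrable (fun x => inner ℝ (f x) (g x)) := by
  have := L2.integrable_inner (𝕜 := ℝ) (hf.toLp f) (hg.toLp g)
  apply this.congr
  filter_upwards [hf.coeFn_toLp, hg.coeFn_toLp] with x h1 h2
  rw [h1, h2]

lemma Eig.zeta {Ω : Set E} {lam : ℝ} {u : E → ℝ} {G : E → E} (h : Eig Ω lam u G) {ζ : E → ℝ}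
    (hζ : ContDiff ℝ ∞ ζ) {c : ℝ} (hc : ∀ x, |ζ x| ≤ c) (hc' : ∀ x, ‖gradient ζ x‖ ≤ c) :
    (∫ x, ζ x * ‖G x‖ ^ 2) + ∫ x, u x * inner ℝ (G x) (gradient ζ x) =
      lam * ∫ x, ζ x * u x ^ 2 := by
  have h1 := h.ext ((h.appr.mul hζ hc hc').mono inter_subset_left)
  have i1 : Integrable (fun x => ζ x * ‖G x‖ ^ 2) := by
    have := int_inner h.appr.2.1 (memLp_bdd_mul hζ.continuous hc h.appr.2.1)
    apply this.congr (Eventually.of_forall fun x => ?_)
    simp only [inner_smul_right, real_inner_self_eq_norm_sq]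
  have i2 : Integrable (fun x => u x * inner ℝ (G x) (gradient ζ x)) := by
    have := int_inner h.appr.2.1 (memLp_mul_bdd (grad_cont hζ) hc' h.appr.1)
    apply this.congr (Eventually.of_forall fun x => ?_)
    simp only [inner_smul_right]
  rw [← integral_add i1 i2]
  have e1 : ∀ x, inner ℝ (G x) (ζ x • G x + u x • gradient ζ x) =
      ζ x * ‖G x‖ ^ 2 + u x * inner ℝ (G x) (gradient ζ x) := by
    intro x
    rw [inner_add_right, inner_smul_right, inner_smul_right, real_inner_self_eq_norm_sq]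
  simp only [e1] at h1
  rw [h1]
  congr 2
  ext x
  ring

lemma Eig.ims {Ω : Set E} {lam : ℝ} {u : E → ℝ} {G : E → E} (h : Eig Ω lam u G) {η : E → ℝ}
    (hη : ContDiff ℝ ∞ η) {c : ℝ} (hc : ∀ x, |η x| ≤ c) (hc' : ∀ x, ‖gradient η x‖ ≤ c) :
    ∫ x, ‖η x • G x + u x • gradient η x‖ ^ 2 = lam * (∫ x, (η x * u x) ^ 2) +
      ∫ x, u x ^ 2 * ‖gradient η x‖ ^ 2 := by
  have hc0 : 0 ≤ c := (abs_nonneg _).trans (hc 0)
  have g2 : ∀ x, gradient (fun x => η x ^ 2) x = (2 * η x) • gradient η x := by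
    intro x
    have hd : DifferentiableAt ℝ η x := (hη.differentiable (by simp)).differentiableAt
    have := grad_mul hd hd
    rw [show (fun x => η x ^ 2) = fun x => η x * η x by ext; ring, this, ← add_smul]
    congr 1
    ring
  have h1 := h.zeta (ζ := fun x => η x ^ 2) (hη.pow 2) (c := c ^ 2 + 2 * c * c)
    (fun x => by
      rw [abs_pow]
      have := pow_le_pow_left₀ (abs_nonneg _) (hc x) 2
      nlinarith)
    (fun x => by
      rw [g2, norm_smul, norm_mul, Real.norm_eq_abs, Real.norm_eq_abs, abs_two]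
      have := mul_le_mul (hc x) (hc' x) (norm_nonneg _) hc0
      nlinarith [sq_nonneg c])
  have i3 : Integrable (fun x => u x ^ 2 * ‖gradient η x‖ ^ 2) := by
    have hm := memLp_mul_bdd (grad_cont hη) hc' h.appr.1
    have := int_inner hm hm
    apply this.congr (Eventually.of_forall fun x => ?_)
    simp only [real_inner_self_eq_norm_sq, norm_smul, mul_pow, Real.norm_eq_abs, sq_abs]
  have hcsq : ∀ x, |η x ^ 2| ≤ c ^ 2 := fun x => by
      rw [abs_pow]
      exact pow_le_pow_left₀ (abs_nonneg _) (hc x) 2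
  have i1 : Integrable (fun x => η x ^ 2 * ‖G x‖ ^ 2) := by
    have := int_inner h.appr.2.1 (memLp_bdd_mul (hη.continuous.pow 2) hcsq h.appr.2.1)
    apply this.congr (Eventually.of_forall fun x => ?_)
    simp only [Pi.pow_apply, inner_smul_right, real_inner_self_eq_norm_sq]
  have i2 : Integrable (fun x => u x * inner ℝ (G x) (gradient (fun x => η x ^ 2) x)) := by
    have hcc : ∀ x, ‖gradient (fun x => η x ^ 2) x‖ ≤ 2 * c * c := by
      intro x
      rw [g2, norm_smul, norm_mul, Real.norm_eq_abs, Real.norm_eq_abs, abs_two]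
      have := mul_le_mul (hc x) (hc' x) (norm_nonneg _) hc0
      nlinarith
    have := int_inner h.appr.2.1 (memLp_mul_bdd (grad_cont (hη.pow 2)) hcc h.appr.1)
    apply this.congr (Eventually.of_forall fun x => ?_)
    simp only [inner_smul_right]
  have e1 : ∀ x, ‖η x • G x + u x • gradient η x‖ ^ 2 = η x ^ 2 * ‖G x‖ ^ 2 +
      u x * inner ℝ (G x) (gradient (fun x => η x ^ 2) x) + u x ^ 2 * ‖gradient η x‖ ^ 2 := by
    intro x
    rw [norm_add_sq_real, norm_smul, norm_smul, mul_pow, mul_pow, Real.norm_eq_abs, sq_abs,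
      Real.norm_eq_abs, sq_abs, g2, inner_smul_left, inner_smul_right, inner_smul_right]
    simp only [conj_trivial]
    ring
  simp only [e1]
  have i12 : Integrable (fun x => η x ^ 2 * ‖G x‖ ^ 2 +
      u x * inner ℝ (G x) (gradient (fun x => η x ^ 2) x)) := i1.add i2
  rw [integral_add i12 i3, integral_add i1 i2, h1]
  congr 3
  ext x
  ring

lemma Eig.flux {Ω : Set E} {lam : ℝ} {u : E → ℝ} {G : E → E} (h : Eig Ω lam u G) {ζ : E → ℝ}
    (hζ : ContDiff ℝ ∞ ζ) (h0 : ∀ x, 0 ≤ ζ x) {c : ℝ} (hc : ∀ x, |ζ x| ≤ c)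
    (hc' : ∀ x, ‖gradient ζ x‖ ≤ c) :
    ∫ x, u x * inner ℝ (G x) (gradient ζ x) ≤ lam * ∫ x, ζ x * u x ^ 2 := by
  have h1 := h.zeta hζ hc hc'
  have h2 : 0 ≤ ∫ x, ζ x * ‖G x‖ ^ 2 :=
    integral_nonneg fun x => mul_nonneg (h0 x) (sq_nonneg _)
  linarith

section L1

variable {V : Type*} [NormedAddCommGroup V] [InnerProductSpace ℝ V]

lemma L1_conv {f : ℕ → E → ℝ} {h : ℕ → E → V} {f0 : E → ℝ} {h0 : E → V}
    (hf : ∀ k, MemLp (f k) 2 volume) (hf0 : MemLp f0 2 volume) (hh : ∀ k, MemLp (h k) 2 volume)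
    (hh0 : MemLp h0 2 volume)
    (tf : Tendsto (fun k => eLpNorm (fun x => f k x - f0 x) 2 volume) atTop (𝓝 0))
    (th : Tendsto (fun k => eLpNorm (fun x => h k x - h0 x) 2 volume) atTop (𝓝 0)) :
    Tendsto (fun k => ∫ x, ‖f k x • h k x - f0 x • h0 x‖) atTop (𝓝 0) := by
  have key : ∀ k, eLpNorm (fun x => f k x • h k x - f0 x • h0 x) 1 volume ≤
      eLpNorm (fun x => f k x - f0 x) 2 volume *
        (eLpNorm (fun x => h k x - h0 x) 2 volume + eLpNorm h0 2 volume) +
      eLpNorm f0 2 volume * eLpNorm (fun x => h k x - h0 x) 2 volume := by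
    intro k
    have e : (fun x => f k x • h k x - f0 x • h0 x) =
        (fun x => f k x - f0 x) • (h k) + f0 • (fun x => h k x - h0 x) := by
      ext x
      simp only [Pi.add_apply, Pi.smul_apply', sub_smul, smul_sub]
      abel
    have m1 : AEStronglyMeasurable (fun x => f k x - f0 x) volume := (hf k).1.sub hf0.1
    have m2 : AEStronglyMeasurable (fun x => h k x - h0 x) volume := (hh k).1.sub hh0.1
    rw [e]
    refine (eLpNorm_add_le (m1.smul (hh k).1) (hf0.1.smul m2) le_rfl).trans ?_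
    have b1 : eLpNorm ((fun x => f k x - f0 x) • (h k)) 1 volume ≤
        eLpNorm (fun x => f k x - f0 x) 2 volume * eLpNorm (h k) 2 volume :=
      eLpNorm_smul_le_mul_eLpNorm (hh k).1 m1
    have b2 : eLpNorm (f0 • (fun x => h k x - h0 x)) 1 volume ≤
        eLpNorm f0 2 volume * eLpNorm (fun x => h k x - h0 x) 2 volume :=
      eLpNorm_smul_le_mul_eLpNorm m2 hf0.1
    have b3 : eLpNorm (h k) 2 volume ≤
        eLpNorm (fun x => h k x - h0 x) 2 volume + eLpNorm h0 2 volume := by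
      have : h k = (fun x => h k x - h0 x) + h0 := by
        ext x
        simp
      conv_lhs => rw [this]
      exact eLpNorm_add_le m2 hh0.1 (by norm_num)
    gcongr
    exact b1.trans (by gcongr)
  have t1 : Tendsto (fun k => eLpNorm (fun x => f k x - f0 x) 2 volume *
        (eLpNorm (fun x => h k x - h0 x) 2 volume + eLpNorm h0 2 volume) +
      eLpNorm f0 2 volume * eLpNorm (fun x => h k x - h0 x) 2 volume) atTop (𝓝 0) := by
    have a1 : Tendsto (fun k => eLpNorm (fun x => h k x - h0 x) 2 volume +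
        eLpNorm h0 2 volume) atTop (𝓝 (0 + eLpNorm h0 2 volume)) := th.add tendsto_const_nhds
    have a2 := ENNReal.Tendsto.mul tf (Or.inr (by
      rw [zero_add]; exact hh0.2.ne)) a1 (Or.inr ENNReal.zero_ne_top)
    have a3 := ENNReal.Tendsto.const_mul (a := eLpNorm f0 2 volume) th (Or.inr hf0.2.ne)
    have a4 := a2.add a3
    simpa using a4
  have t2 : Tendsto (fun k => eLpNorm (fun x => f k x • h k x - f0 x • h0 x) 1 volume) atTop
      (𝓝 0) :=
    tendsto_of_tendsto_of_tendsto_of_le_of_le tendsto_const_nhds t1 (fun _ => bot_le) key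
  have t3 := (ENNReal.tendsto_toReal ENNReal.zero_ne_top).comp t2
  rw [ENNReal.toReal_zero] at t3
  refine t3.congr fun k => ?_
  simp only [Function.comp_apply]
  rw [eLpNorm_one_eq_lintegral_enorm, integral_norm_eq_lintegral_enorm]
  exact ((hf k).1.smul (hh k).1).sub (hf0.1.smul hh0.1)

end L1

end Pool.Agent.U582.SN
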