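import Pool.Agent.U582.SN.Local

set_option autoImplicit false
set_option linter.unusedSectionVars false

open MeasureTheory Set Filter Topology Metric
open scoped ENNReal NNReal ContDiff

namespace Pool.Agent.U582.SN

variable {E : Type*} [NormedAddCommGroup E] [InnerProductSpace ℝ E] [FiniteDimensional ℝ E]
  [MeasurableSpace E] [BorelSpace E]

lemma avg_le {u : E → ℝ} (hu : MemLp u 2 volume) (x0 : E) {r : ℝ} (hr : 0 < r) :
    ⨍ y in closedBall x0 r, u y ^ 2 ≤ (volume.real (ball (0 : E) 1))⁻¹ * Real.exp (1 / 2) *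
      ((r ^ Module.finrank ℝ E)⁻¹ * ∫ x, Z x0 r x * u x ^ 2) := by
  have iu : Integrable (fun x => u x ^ 2) := hu.integrable_sq
  have iZ : Integrable (fun x => Z x0 r x * u x ^ 2) := by
    apply Integrable.bdd_mul (c := 1) iu (Z_contDiff x0 r).continuous.aestronglyMeasurable
    refine Eventually.of_forall fun x => ?_
    rw [Real.norm_eq_abs, abs_of_pos (Z_pos _ _ _)]
    exact Z_le_one _ _ _
  rw [setAverage_eq, Measure.addHaar_real_closedBall _ _ hr.le, smul_eq_mul, mul_inv]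
  have h1 : ∫ x in closedBall x0 r, u x ^ 2 ≤ Real.exp (1 / 2) * ∫ x, Z x0 r x * u x ^ 2 := by
    have h2 : ∫ x in closedBall x0 r, u x ^ 2 ≤
        ∫ x in closedBall x0 r, Real.exp (1 / 2) * (Z x0 r x * u x ^ 2) := by
      apply setIntegral_mono_on iu.integrableOn (iZ.const_mul _).integrableOn
        measurableSet_closedBall
      intro x hx
      rw [mem_closedBall, dist_eq_norm] at hx
      have h3 : 1 ≤ Real.exp (1 / 2) * Z x0 r x := by
        unfold Z
        rw [← Real.exp_add]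
        apply Real.one_le_exp
        have h4 : ‖x - x0‖ ^ 2 / (2 * r ^ 2) ≤ 1 / 2 := by
          rw [div_le_div_iff₀ (by positivity) (by norm_num)]
          have := pow_le_pow_left₀ (norm_nonneg _) hx 2
          linarith
        linarith
      calc u x ^ 2 ≤ (Real.exp (1 / 2) * Z x0 r x) * u x ^ 2 :=
            le_mul_of_one_le_left (sq_nonneg _) h3
        _ = _ := by ring
    refine h2.trans ?_
    rw [← integral_const_mul]
    apply setIntegral_le_integral (iZ.const_mul _)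
    refine Eventually.of_forall fun x => ?_
    exact mul_nonneg (Real.exp_pos _).le (mul_nonneg (Z_pos _ _ _).le (sq_nonneg _))
  have h5 : 0 ≤ (r ^ Module.finrank ℝ E)⁻¹ * (volume.real (ball (0 : E) 1))⁻¹ := by positivity
  calc _ ≤ (r ^ Module.finrank ℝ E)⁻¹ * (volume.real (ball (0 : E) 1))⁻¹ *
        (Real.exp (1 / 2) * ∫ x, Z x0 r x * u x ^ 2) := mul_le_mul_of_nonneg_left h1 h5
    _ = _ := by ring

lemma ae_bound {Ω : Set E} {u : E → ℝ} (hu : MemLp u 2 volume) {ρ B : ℝ} (hρ : 0 < ρ)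
    (hB : ∀ x0 ∈ Ω, ∀ r, 0 < r → r ≤ ρ →
      (r ^ Module.finrank ℝ E)⁻¹ * ∫ x, Z x0 r x * u x ^ 2 ≤ B) :
    ∀ᵐ x : E, x ∈ Ω → u x ^ 2 ≤ (volume.real (ball (0 : E) 1))⁻¹ * Real.exp (1 / 2) * B := by
  have iu : Integrable (fun x => u x ^ 2) := hu.integrable_sq
  filter_upwards [IsUnifLocDoublingMeasure.ae_tendsto_average (μ := (volume : Measure E))
    iu.locallyIntegrable 1] with x hx hxΩ
  have hδ : Tendsto (fun k : ℕ => ρ / ((k : ℝ) + 1)) atTop (𝓝[>] 0) := by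
    rw [tendsto_nhdsWithin_iff]
    constructor
    · exact tendsto_const_nhds.div_atTop
        (tendsto_atTop_add_const_right _ _ tendsto_natCast_atTop_atTop)
    · refine Eventually.of_forall fun k => ?_
      rw [mem_Ioi]
      positivity
  have h1 := hx (fun _ : ℕ => x) (fun k : ℕ => ρ / ((k : ℝ) + 1)) hδ
    (Eventually.of_forall fun k => mem_closedBall_self (by positivity))
  refine le_of_tendsto h1 (Eventually.of_forall fun k => ?_)
  have hr : 0 < ρ / ((k : ℝ) + 1) := by positivity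
  have hr2 : ρ / ((k : ℝ) + 1) ≤ ρ := div_le_self hρ.le (by
    have : (0:ℝ) ≤ k := Nat.cast_nonneg k
    linarith)
  refine (avg_le hu x hr).trans ?_
  have := hB x hxΩ _ hr hr2
  gcongr

/-- The main estimate, all quantities explicit. -/
theorem main_est (E : Type*) [NormedAddCommGroup E] [InnerProductSpace ℝ E]
    [FiniteDimensional ℝ E] [MeasurableSpace E] [BorelSpace E] :
    ∃ C : ℝ, 0 < C ∧ ∀ Ω : Set E, Convex ℝ Ω → ∀ lam : ℝ, 0 ≤ lam →
      (∀ v : E → ℝ, Tst Ω v → lam * ∫ x, v x ^ 2 ≤ ∫ x, ‖fderiv ℝ v x‖ ^ 2) →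
      ∀ (u : E → ℝ) (G : E → E), Eig Ω lam u G → ∀ (z : E) (D l ρ : ℝ), 0 < ρ → 0 < l → 0 < D →
      ball z (ρ / 2) ⊆ Ω → l ^ 3 = ρ ^ 2 * D → ρ ≤ l →
      (∀ x0 ∈ Ω, ∃ p ∈ Ω, D / 3 ≤ ‖p - x0‖) →
      ∀ᵐ x : E, x ∈ Ω → u x ^ 2 ≤ C * ((ρ ^ Module.finrank ℝ E)⁻¹ * (ρ / l) * ∫ x, u x ^ 2) := by
  obtain ⟨c2, hc20, hc2⟩ := exists_c2 E
  set C1 := 4 * (b1 E / b0 E) with hC1
  have hC10 : 0 ≤ C1 := mul_nonneg (by norm_num) (div_nonneg (b1_nonneg E) (b0_pos E).le)
  set C3 := Real.pi * (1 + (CS (Module.finrank ℝ E) + 3 * c2 ^ 2 + 27 * C1)) + 7 with hC3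
  have hC30 : 0 < C3 := by
    have := CS_nonneg (Module.finrank ℝ E)
    positivity
  set v := volume.real (ball (0 : E) 1) with hv
  have hv0 : 0 < v := by
    rw [hv, Measure.real]
    exact ENNReal.toReal_pos (measure_ball_pos volume _ one_pos).ne' measure_ball_lt_top.ne
  refine ⟨v⁻¹ * Real.exp (1 / 2) * (Real.exp C1 * C3), by positivity, ?_⟩
  intro Ω hΩ lam hlam H u G h z D l ρ hρ hl hD hball hcube hρl hfar
  have hlamC : lam ≤ C1 / ρ ^ 2 := by
    have := lam_le H (z := z) (r := ρ / 2) (by positivity) hball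
    calc lam ≤ _ := this
      _ = C1 / ρ ^ 2 := by
        rw [hC1]
        ring
  have hB : ∀ x0 ∈ Ω, ∀ r, 0 < r → r ≤ ρ →
      (r ^ Module.finrank ℝ E)⁻¹ * ∫ x, Z x0 r x * u x ^ 2 ≤
        Real.exp C1 * ((ρ ^ Module.finrank ℝ E)⁻¹ * (C3 * (ρ / l) * ∫ x, u x ^ 2)) := by
    intro x0 hx0 r hr hrρ
    obtain ⟨p, hp, hpd⟩ := hfar x0 hx0
    have h1 := h.gauss_mono hlam x0 hr hrρ
    have h2 := gauss_mass hΩ hlam H h hp hC10 hlamC hρ hl hD hcube hρl hpd hc20 hc2
    have h3 : Real.exp (lam * ρ ^ 2) ≤ Real.exp C1 := by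
      apply Real.exp_le_exp.mpr
      rw [le_div_iff₀ (by positivity)] at hlamC
      exact hlamC
    refine h1.trans ?_
    have h4 : 0 ≤ ∫ x, Z x0 ρ x * u x ^ 2 :=
      integral_nonneg fun x => mul_nonneg (Z_pos _ _ _).le (sq_nonneg _)
    apply mul_le_mul h3 _ (by positivity) (Real.exp_pos _).le
    exact mul_le_mul_of_nonneg_left h2 (by positivity)
  filter_upwards [ae_bound h.appr.1 hρ hB] with x hx hxΩ
  refine (hx hxΩ).trans (le_of_eq ?_)
  ring

end Pool.Agent.U582.SN
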