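import Pool.Agent.U582.SN.Eig

set_option autoImplicit false
set_option linter.unusedSectionVars false

open MeasureTheory Set Filter Topology Metric
open scoped ENNReal NNReal ContDiff

namespace Pool.Agent.U582.SN

variable {E : Type*} [NormedAddCommGroup E] [InnerProductSpace ℝ E] [FiniteDimensional ℝ E]
  [MeasurableSpace E] [BorelSpace E]

/-- Gaussian -/
noncomputable def Z (x0 : E) (r : ℝ) (x : E) : ℝ := Real.exp (-(‖x - x0‖ ^ 2 / (2 * r ^ 2)))

lemma Z_pos (x0 : E) (r : ℝ) (x : E) : 0 < Z x0 r x := Real.exp_pos _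

lemma Z_le_one (x0 : E) (r : ℝ) (x : E) : Z x0 r x ≤ 1 := by
  unfold Z
  rw [Real.exp_le_one_iff]
  have : 0 ≤ ‖x - x0‖ ^ 2 / (2 * r ^ 2) := by positivity
  linarith

lemma Z_contDiff (x0 : E) (r : ℝ) : ContDiff ℝ ∞ (Z x0 r) := by
  unfold Z
  apply Real.contDiff_exp.comp
  exact (((contDiff_id.sub contDiff_const).norm_sq ℝ).div_const _).neg

lemma Z_grad (x0 : E) {r : ℝ} (hr : 0 < r) (x : E) :
    gradient (Z x0 r) x = (-(Z x0 r x / r ^ 2)) • (x - x0) := by
  have h1 : HasFDerivAt (fun x : E => ‖x - x0‖ ^ 2) (2 • (innerSL ℝ (x - x0))) x := by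
    have := HasFDerivAt.comp x (g := fun z : E => ‖z‖ ^ 2) (f := fun x : E => x - x0)
      (hasStrictFDerivAt_norm_sq (x - x0)).hasFDerivAt ((hasFDerivAt_id x).sub_const x0)
    rw [ContinuousLinearMap.comp_id] at this
    exact this
  have h2 : HasFDerivAt (fun x : E => -(‖x - x0‖ ^ 2 / (2 * r ^ 2)))
      (-((2 * r ^ 2)⁻¹ • (2 • (innerSL ℝ (x - x0))))) x := by
    have e : (fun x : E => -(‖x - x0‖ ^ 2 / (2 * r ^ 2))) =
        fun y => -((2 * r ^ 2)⁻¹ * ‖y - x0‖ ^ 2) := by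
      ext y
      ring
    rw [e]
    exact (h1.const_mul ((2 * r ^ 2)⁻¹)).fun_neg
  have h3 := (Real.hasDerivAt_exp (-(‖x - x0‖ ^ 2 / (2 * r ^ 2)))).comp_hasFDerivAt x h2
  have h4 : fderiv ℝ (Z x0 r) x = Z x0 r x • (-((2 * r ^ 2)⁻¹ • (2 • (innerSL ℝ (x - x0))))) :=
    h3.fderiv
  apply ext_inner_right ℝ
  intro v
  rw [grad_inner, h4, inner_smul_left, inner_sub_left]
  simp
  field_simp

lemma aexp {a : ℝ} (ha : 0 ≤ a) : a * Real.exp (-(a ^ 2 / 2)) ≤ 1 := by
  rw [Real.exp_neg, ← div_eq_mul_inv, div_le_one (Real.exp_pos _)]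
  have h1 := Real.add_one_le_exp (a ^ 2 / 2)
  nlinarith [sq_nonneg (a - 1)]

lemma Z_grad_norm (x0 : E) {r : ℝ} (hr : 0 < r) (x : E) : ‖gradient (Z x0 r) x‖ ≤ r⁻¹ := by
  rw [Z_grad x0 hr, norm_smul, norm_neg, norm_div, Real.norm_eq_abs, abs_of_pos (Z_pos _ _ _),
    norm_pow, Real.norm_eq_abs, abs_of_pos hr]
  have h := aexp (a := ‖x - x0‖ / r) (by positivity)
  have e : Z x0 r x = Real.exp (-((‖x - x0‖ / r) ^ 2 / 2)) := by
    unfold Z
    congr 2
    field_simp
  rw [← e] at h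
  calc Z x0 r x / r ^ 2 * ‖x - x0‖ = (‖x - x0‖ / r * Z x0 r x) * r⁻¹ := by field_simp
    _ ≤ 1 * r⁻¹ := by gcongr
    _ = r⁻¹ := one_mul _

/-- the Gaussian mean in scaled variables -/
noncomputable def hS (φ : E → ℝ) (x0 : E) (r : ℝ) : ℝ :=
  ∫ y, φ (x0 + r • y) ^ 2 * Real.exp (-(‖y‖ ^ 2 / 2))

lemma int_scale (f : E → ℝ) (x0 : E) {r : ℝ} (hr : 0 < r) :
    ∫ y, f (x0 + r • y) = (r ^ Module.finrank ℝ E)⁻¹ * ∫ x, f x := by
  have h1 := Measure.integral_comp_smul (volume : Measure E) (fun z => f (x0 + z)) r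
  rw [h1, integral_add_left_eq_self f x0, smul_eq_mul, abs_of_pos (by positivity)]

lemma Z_at (x0 : E) {r : ℝ} (hr : 0 < r) (y : E) :
    Z x0 r (x0 + r • y) = Real.exp (-(‖y‖ ^ 2 / 2)) := by
  unfold Z
  rw [add_sub_cancel_left, norm_smul, Real.norm_eq_abs, abs_of_pos hr]
  congr 2
  field_simp

lemma hS_eq (φ : E → ℝ) (x0 : E) {r : ℝ} (hr : 0 < r) :
    hS φ x0 r = (r ^ Module.finrank ℝ E)⁻¹ * ∫ x, Z x0 r x * φ x ^ 2 := by
  rw [← int_scale _ x0 hr]
  unfold hS
  congr 1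
  ext y
  rw [Z_at x0 hr]
  ring

lemma hS_deriv {S : Set E} {φ : E → ℝ} (hφ : Tst S φ) (x0 : E) {r : ℝ} (hr : 0 < r) :
    HasDerivAt (hS φ x0) (∫ y, (2 * φ (x0 + r • y) * fderiv ℝ φ (x0 + r • y) y) *
      Real.exp (-(‖y‖ ^ 2 / 2))) r := by
  obtain ⟨R0, hR0⟩ := hφ.cs.isCompact.isBounded.subset_closedBall x0
  obtain ⟨M1, hM1⟩ := hφ.smooth.continuous.bounded_above_of_compact_support hφ.cs
  obtain ⟨M2, hM2⟩ := (hφ.smooth.continuous_fderiv (by simp)).bounded_above_of_compact_support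
    (hφ.cs.fderiv (𝕜 := ℝ))
  have hM1' : 0 ≤ M1 := (norm_nonneg _).trans (hM1 0)
  have hM2' : 0 ≤ M2 := (norm_nonneg _).trans (hM2 0)
  set Q := 2 * |R0| / r with hQ
  have cont_e : Continuous fun y : E => Real.exp (-(‖y‖ ^ 2 / 2)) := by fun_prop
  have cdφ := hφ.smooth.continuous_fderiv (by simp)
  have cF' : ∀ s : ℝ, Continuous fun y : E => (2 * φ (x0 + s • y) *
      fderiv ℝ φ (x0 + s • y) y) * Real.exp (-(‖y‖ ^ 2 / 2)) := by
    intro s
    have hc := hφ.smooth.continuous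
    have h1 : Continuous fun y : E => x0 + s • y := by fun_prop
    have h2 : Continuous fun y : E => fderiv ℝ φ (x0 + s • y) y :=
      (cdφ.comp h1).clm_apply continuous_id
    exact ((continuous_const.mul (hc.comp h1)).mul h2).mul cont_e
  have cF : ∀ s : ℝ, Continuous fun y : E => φ (x0 + s • y) ^ 2 *
      Real.exp (-(‖y‖ ^ 2 / 2)) := by
    intro s
    have hc := hφ.smooth.continuous
    exact ((hc.comp (by fun_prop)).pow 2).mul cont_e
  have hz : ∀ s, r / 2 < s → ∀ y : E, Q < ‖y‖ → x0 + s • y ∉ tsupport φ := by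
    intro s hs y hy hmem
    have h1 := hR0 hmem
    rw [mem_closedBall, dist_eq_norm, add_sub_cancel_left, norm_smul, Real.norm_eq_abs,
      abs_of_pos (by linarith)] at h1
    have h2 : |R0| < s * ‖y‖ := by
      have h3 : |R0| = (r / 2) * Q := by rw [hQ]; field_simp
      rw [h3]
      have hQ0 : 0 ≤ Q := by positivity
      nlinarith
    linarith [le_abs_self R0]
  have hderiv := hasDerivAt_integral_of_dominated_loc_of_deriv_le (μ := (volume : Measure E))
    (F := fun s y => φ (x0 + s • y) ^ 2 * Real.exp (-(‖y‖ ^ 2 / 2)))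
    (F' := fun s y => (2 * φ (x0 + s • y) * fderiv ℝ φ (x0 + s • y) y) *
      Real.exp (-(‖y‖ ^ 2 / 2))) (x₀ := r) (s := Ioi (r / 2))
    (bound := (closedBall (0 : E) Q).indicator (fun _ => 2 * M1 * M2 * Q))
    (Ioi_mem_nhds (by linarith))
    (Eventually.of_forall fun s => (cF s).aestronglyMeasurable)
    (by
      apply (cF r).integrable_of_hasCompactSupport
      apply HasCompactSupport.of_support_subset_isCompact (isCompact_closedBall (0 : E) Q)
      intro y hy
      by_contra hy2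
      rw [mem_closedBall, dist_zero_right, not_le] at hy2
      apply hy
      simp [image_eq_zero_of_notMem_tsupport (hz r (by linarith) y hy2)])
    (cF' r).aestronglyMeasurable
    (by
      refine Eventually.of_forall fun y s hs => ?_
      rw [mem_Ioi] at hs
      by_cases hy : y ∈ closedBall (0 : E) Q
      · rw [indicator_of_mem hy, norm_mul, norm_mul, norm_mul]
        rw [mem_closedBall, dist_zero_right] at hy
        have b1 : ‖(2:ℝ)‖ = 2 := by norm_num
        have b2 := hM1 (x0 + s • y)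
        have b3 : ‖fderiv ℝ φ (x0 + s • y) y‖ ≤ M2 * Q :=
          ((fderiv ℝ φ (x0 + s • y)).le_opNorm y).trans
            (mul_le_mul (hM2 _) hy (norm_nonneg _) hM2')
        have b4 : ‖Real.exp (-(‖y‖ ^ 2 / 2))‖ ≤ 1 := by
          rw [Real.norm_eq_abs, abs_of_pos (Real.exp_pos _), Real.exp_le_one_iff]
          have : 0 ≤ ‖y‖ ^ 2 / 2 := by positivity
          linarith
        have hQ0 : 0 ≤ Q := by positivity
        calc ‖(2:ℝ)‖ * ‖φ (x0 + s • y)‖ * ‖fderiv ℝ φ (x0 + s • y) y‖ *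
              ‖Real.exp (-(‖y‖ ^ 2 / 2))‖ ≤ 2 * M1 * (M2 * Q) * 1 := by
              rw [b1]
              gcongr
          _ = 2 * M1 * M2 * Q := by ring
      · rw [indicator_of_notMem hy]
        rw [mem_closedBall, dist_zero_right, not_le] at hy
        simp [image_eq_zero_of_notMem_tsupport (hz s hs y hy)])
    (by
      rw [integrable_indicator_iff measurableSet_closedBall]
      exact integrableOn_const (measure_closedBall_lt_top).ne)
    (by
      refine Eventually.of_forall fun y s hs => ?_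
      have h1 : HasDerivAt (fun s : ℝ => x0 + s • y) y s := by
        have := ((hasDerivAt_id s).smul_const y).const_add x0
        simpa using this
      have h2 := (hφ.diff (x0 + s • y)).hasFDerivAt.comp_hasDerivAt s h1
      have h3 := (h2.fun_pow 2).mul_const (Real.exp (-(‖y‖ ^ 2 / 2)))
      refine h3.congr_deriv ?_
      simp only [Function.comp_apply]
      norm_num)
  exact hderiv.2

lemma hS_deriv' {S : Set E} {φ : E → ℝ} (hφ : Tst S φ) (x0 : E) {r : ℝ} (hr : 0 < r) :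
    HasDerivAt (hS φ x0) (-(2 * r * (r ^ Module.finrank ℝ E)⁻¹ *
      ∫ x, φ x * inner ℝ (gradient φ x) (gradient (Z x0 r) x))) r := by
  have h := hS_deriv hφ x0 hr
  convert h using 1
  have e1 : ∀ y, (2 * φ (x0 + r • y) * fderiv ℝ φ (x0 + r • y) y) *
      Real.exp (-(‖y‖ ^ 2 / 2)) = (fun x => -(2 * r) *
        (φ x * inner ℝ (gradient φ x) (gradient (Z x0 r) x))) (x0 + r • y) := by
    intro y
    simp only
    rw [Z_grad x0 hr, Z_at x0 hr, inner_smul_right, grad_inner, add_sub_cancel_left, map_smul,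
      smul_eq_mul]
    field_simp
  simp only [e1]
  rw [int_scale (fun x => -(2 * r) * (φ x * inner ℝ (gradient φ x) (gradient (Z x0 r) x))) x0 hr,
    integral_const_mul]
  ring

end Pool.Agent.U582.SN
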