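import Pool.Agent.U582.SN.Trans2

set_option autoImplicit false
set_option linter.unusedSectionVars false

open MeasureTheory Set Filter Topology Metric
open scoped ENNReal NNReal ContDiff

namespace Pool.Agent.U582.SN

section L2

variable {α : Type*} [MeasurableSpace α] {μ : Measure α} {V : Type*} [NormedAddCommGroup V]
  [InnerProductSpace ℝ V]

lemma tendsto_inner {f h : ℕ → α → V} {f0 h0 : α → V} (hf : ∀ k, MemLp (f k) 2 μ)
    (hf0 : MemLp f0 2 μ) (hh : ∀ k, MemLp (h k) 2 μ) (hh0 : MemLp h0 2 μ)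
    (tf : Tendsto (fun k => eLpNorm (fun x => f k x - f0 x) 2 μ) atTop (𝓝 0))
    (th : Tendsto (fun k => eLpNorm (fun x => h k x - h0 x) 2 μ) atTop (𝓝 0)) :
    Tendsto (fun k => ∫ x, inner ℝ (f k x) (h k x) ∂μ) atTop
      (𝓝 (∫ x, inner ℝ (f0 x) (h0 x) ∂μ)) := by
  have t1 : Tendsto (fun k => (hf k).toLp (f k)) atTop (𝓝 (hf0.toLp f0)) :=
    (Lp.tendsto_Lp_iff_tendsto_eLpNorm'' f hf f0 hf0).mpr tf
  have t2 : Tendsto (fun k => (hh k).toLp (h k)) atTop (𝓝 (hh0.toLp h0)) :=
    (Lp.tendsto_Lp_iff_tendsto_eLpNorm'' h hh h0 hh0).mpr th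
  have t3 := t1.inner t2 (𝕜 := ℝ)
  have e : ∀ (a b : α → V) (ha : MemLp a 2 μ) (hb : MemLp b 2 μ),
      inner ℝ (ha.toLp a) (hb.toLp b) = ∫ x, inner ℝ (a x) (b x) ∂μ := by
    intro a b ha hb
    rw [L2.inner_def]
    apply integral_congr_ae
    filter_upwards [ha.coeFn_toLp, hb.coeFn_toLp] with x h1 h2
    rw [h1, h2]
  simp only [e] at t3
  exact t3

lemma tendsto_zero_of_le {W W' : Type*} [NormedAddCommGroup W] [NormedAddCommGroup W']
    {A : ℕ → α → W} {B : ℕ → α → W'} {c : ℝ} (h : ∀ k x, ‖A k x‖ ≤ c * ‖B k x‖)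
    (tB : Tendsto (fun k => eLpNorm (B k) 2 μ) atTop (𝓝 0)) :
    Tendsto (fun k => eLpNorm (A k) 2 μ) atTop (𝓝 0) := by
  have h1 : ∀ k, eLpNorm (A k) 2 μ ≤ ENNReal.ofReal c * eLpNorm (B k) 2 μ := fun k =>
    eLpNorm_le_mul_eLpNorm_of_ae_le_mul (Eventually.of_forall (h k)) 2
  have h2 : Tendsto (fun k => ENNReal.ofReal c * eLpNorm (B k) 2 μ) atTop (𝓝 0) := by
    have := ENNReal.Tendsto.const_mul (a := ENNReal.ofReal c) tB (Or.inr ENNReal.ofReal_ne_top)
    rwa [mul_zero] at this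
  exact tendsto_of_tendsto_of_tendsto_of_le_of_le tendsto_const_nhds h2 (fun _ => bot_le) h1

lemma tendsto_zero_add {W : Type*} [NormedAddCommGroup W]
    {A B : ℕ → α → W} (hA : ∀ k, AEStronglyMeasurable (A k) μ)
    (hB : ∀ k, AEStronglyMeasurable (B k) μ)
    (tA : Tendsto (fun k => eLpNorm (A k) 2 μ) atTop (𝓝 0))
    (tB : Tendsto (fun k => eLpNorm (B k) 2 μ) atTop (𝓝 0)) :
    Tendsto (fun k => eLpNorm (fun x => A k x + B k x) 2 μ) atTop (𝓝 0) := by
  have h2 : Tendsto (fun k => eLpNorm (A k) 2 μ + eLpNorm (B k) 2 μ) atTop (𝓝 0) := by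
    have := tA.add tB
    rwa [add_zero] at this
  exact tendsto_of_tendsto_of_tendsto_of_le_of_le tendsto_const_nhds h2 (fun _ => bot_le)
    (fun k => eLpNorm_add_le (hA k) (hB k) (by norm_num))

end L2

variable {E : Type*} [NormedAddCommGroup E] [InnerProductSpace ℝ E] [FiniteDimensional ℝ E]
  [MeasurableSpace E] [BorelSpace E]

lemma grad_inner (f : E → ℝ) (x v : E) : inner ℝ (gradient f x) v = fderiv ℝ f x v := by
  unfold gradient
  rw [InnerProductSpace.toDual_symm_apply]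

lemma grad_norm (f : E → ℝ) (x : E) : ‖gradient f x‖ = ‖fderiv ℝ f x‖ := by
  unfold gradient
  rw [LinearIsometryEquiv.norm_map]

lemma grad_mul {f g : E → ℝ} {x : E} (hf : DifferentiableAt ℝ f x)
    (hg : DifferentiableAt ℝ g x) :
    gradient (fun x => f x * g x) x = g x • gradient f x + f x • gradient g x := by
  unfold gradient
  rw [fderiv_fun_mul hf hg, map_add, map_smul, map_smul]
  exact add_comm _ _

/-- smooth functions with compact support inside `S` -/
structure Tst (S : Set E) (φ : E → ℝ) : Prop where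
  smooth : ContDiff ℝ ∞ φ
  cs : HasCompactSupport φ
  sub : tsupport φ ⊆ S

lemma Tst.diff {S : Set E} {φ : E → ℝ} (h : Tst S φ) (x : E) : DifferentiableAt ℝ φ x :=
  (h.smooth.differentiable (by simp)).differentiableAt

lemma grad_cont {φ : E → ℝ} (h : ContDiff ℝ ∞ φ) : Continuous (gradient φ) := by
  unfold gradient
  exact (InnerProductSpace.toDual ℝ E).symm.continuous.comp (h.continuous_fderiv (by simp))

lemma grad_cs {φ : E → ℝ} (hc : HasCompactSupport φ) : HasCompactSupport (gradient φ) :=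
  (hc.fderiv (𝕜 := ℝ)).comp_left (g := fun A => (InnerProductSpace.toDual ℝ E).symm A)
    (map_zero _)

lemma Tst.memLp {S : Set E} {φ : E → ℝ} (h : Tst S φ) : MemLp φ 2 volume :=
  h.smooth.continuous.memLp_of_hasCompactSupport h.cs

lemma Tst.memLp_grad {S : Set E} {φ : E → ℝ} (h : Tst S φ) : MemLp (gradient φ) 2 volume :=
  (grad_cont h.smooth).memLp_of_hasCompactSupport (grad_cs h.cs)

lemma Tst.mul {S : Set E} {φ η : E → ℝ} (h : Tst S φ) (hη : ContDiff ℝ ∞ η) :
    Tst (S ∩ tsupport η) (fun x => η x * φ x) where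
  smooth := hη.mul h.smooth
  cs := h.cs.mul_left
  sub := by
    refine subset_inter ?_ ?_
    · exact (tsupport_mul_subset_right).trans h.sub
    · exact tsupport_mul_subset_left

lemma Tst.mono {S S' : Set E} {φ : E → ℝ} (h : Tst S φ) (hS : S ⊆ S') : Tst S' φ :=
  ⟨h.smooth, h.cs, h.sub.trans hS⟩

/-- `(w, g)` is the limit of `(φ, ∇φ)` with test functions in `S`. -/
def Appr (S : Set E) (w : E → ℝ) (g : E → E) : Prop :=
  MemLp w 2 volume ∧ MemLp g 2 volume ∧ ∃ φ : ℕ → E → ℝ, (∀ k, Tst S (φ k)) ∧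
    Tendsto (fun k => eLpNorm (fun x => φ k x - w x) 2 volume) atTop (𝓝 0) ∧
    Tendsto (fun k => eLpNorm (fun x => gradient (φ k) x - g x) 2 volume) atTop (𝓝 0)

lemma memLp_bdd_mul {W : Type*} [NormedAddCommGroup W] [NormedSpace ℝ W] {η : E → ℝ} {f : E → W}
    (hη : Continuous η) {c : ℝ} (hc : ∀ x, |η x| ≤ c) (hf : MemLp f 2 volume) :
    MemLp (fun x => η x • f x) 2 volume := by
  apply MemLp.of_le_mul hf (hη.aestronglyMeasurable.smul hf.1) (c := c)
  refine Eventually.of_forall fun x => ?_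
  rw [Pi.smul_apply', norm_smul]
  exact mul_le_mul_of_nonneg_right (hc x) (norm_nonneg _)

lemma memLp_mul_bdd {W : Type*} [NormedAddCommGroup W] [NormedSpace ℝ W] {η : E → W} {f : E → ℝ}
    (hη : Continuous η) {c : ℝ} (hc : ∀ x, ‖η x‖ ≤ c) (hf : MemLp f 2 volume) :
    MemLp (fun x => f x • η x) 2 volume := by
  apply MemLp.of_le_mul hf (hf.1.smul hη.aestronglyMeasurable) (c := c)
  refine Eventually.of_forall fun x => ?_
  rw [Pi.smul_apply', norm_smul, mul_comm]
  exact mul_le_mul_of_nonneg_right (hc x) (norm_nonneg _)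

lemma Appr.mul {S : Set E} {u : E → ℝ} {G : E → E} (h : Appr S u G) {η : E → ℝ}
    (hη : ContDiff ℝ ∞ η) {c : ℝ} (hc : ∀ x, |η x| ≤ c) (hc' : ∀ x, ‖gradient η x‖ ≤ c) :
    Appr (S ∩ tsupport η) (fun x => η x * u x) (fun x => η x • G x + u x • gradient η x) := by
  obtain ⟨hu, hG, φ, hφ, t1, t2⟩ := h
  have hηc := hη.continuous
  have hgc := grad_cont hη
  refine ⟨memLp_bdd_mul hηc hc hu, (memLp_bdd_mul hηc hc hG).add (memLp_mul_bdd hgc hc' hu),
    fun k x => η x * φ k x, fun k => (hφ k).mul hη, ?_, ?_⟩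
  · apply tendsto_zero_of_le (c := c) _ t1
    intro k x
    rw [← mul_sub, norm_mul]
    exact mul_le_mul_of_nonneg_right (hc x) (norm_nonneg _)
  · have e : ∀ k, (fun x => gradient (fun x => η x * φ k x) x -
        (η x • G x + u x • gradient η x)) =
        fun x => η x • (gradient (φ k) x - G x) + (φ k x - u x) • gradient η x := by
      intro k
      ext1 x
      rw [grad_mul ((hη.differentiable (by simp)).differentiableAt) ((hφ k).diff x), smul_sub,
        sub_smul]
      abel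
    simp only [e]
    apply tendsto_zero_add
    · intro k
      exact hηc.aestronglyMeasurable.smul ((hφ k).memLp_grad.1.sub hG.1)
    · intro k
      exact ((hφ k).memLp.1.sub hu.1).smul hgc.aestronglyMeasurable
    · apply tendsto_zero_of_le (c := c) _ t2
      intro k x
      rw [norm_smul]
      exact mul_le_mul_of_nonneg_right (hc x) (norm_nonneg _)
    · apply tendsto_zero_of_le (c := c) _ t1
      intro k x
      rw [norm_smul, mul_comm]
      exact mul_le_mul_of_nonneg_right (hc' x) (norm_nonneg _)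

end Pool.Agent.U582.SN
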