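import Pool.Agent.U582.SN.Lim

set_option autoImplicit false
set_option linter.unusedSectionVars false

open MeasureTheory Set Filter Topology Metric
open scoped ENNReal NNReal ContDiff

namespace Pool.Agent.U582.SN

variable {E : Type*} [NormedAddCommGroup E] [InnerProductSpace ℝ E] [FiniteDimensional ℝ E]
  [MeasurableSpace E] [BorelSpace E]

open Submodule

lemma tendsto_sq {S : Set E} {φ : ℕ → E → ℝ} {w : E → ℝ} (hφ : ∀ k, Tst S (φ k))
    (hw : MemLp w 2 volume) (t1 : Tendsto (fun k => eLpNorm (fun x => φ k x - w x) 2 volume)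
      atTop (𝓝 0)) :
    Tendsto (fun k => ∫ x, φ k x ^ 2) atTop (𝓝 (∫ x, w x ^ 2)) := by
  have h := tendsto_inner (fun k => (hφ k).memLp) hw (fun k => (hφ k).memLp) hw t1 t1
  simpa [sq] using h

lemma tendsto_sq_weight {S : Set E} {φ : ℕ → E → ℝ} {w : E → ℝ} (hφ : ∀ k, Tst S (φ k))
    (hw : MemLp w 2 volume) (t1 : Tendsto (fun k => eLpNorm (fun x => φ k x - w x) 2 volume)
      atTop (𝓝 0)) {θ : E → ℝ} (hθ : Continuous θ) {c : ℝ} (hc : ∀ x, |θ x| ≤ c) :
    Tendsto (fun k => ∫ x, θ x * φ k x ^ 2) atTop (𝓝 (∫ x, θ x * w x ^ 2)) := by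
  have h := tendsto_inner (fun k => (hφ k).memLp) hw
    (fun k => memLp_bdd_mul hθ hc (hφ k).memLp) (memLp_bdd_mul hθ hc hw) t1
    (tendsto_zero_of_le (c := c) (A := fun k x => θ x • φ k x - θ x • w x) (fun k x => by
      rw [← smul_sub, norm_smul]
      exact mul_le_mul_of_nonneg_right (hc x) (norm_nonneg _)) t1)
  convert h using 1
  · ext k
    congr 1
    ext x
    simp
    ring
  · congr 1
    congr 1
    ext x
    simp
    ring

lemma tendsto_grad_sq {S : Set E} {φ : ℕ → E → ℝ} {g : E → E} (hφ : ∀ k, Tst S (φ k))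
    (hg : MemLp g 2 volume) (t1 : Tendsto (fun k => eLpNorm (fun x => gradient (φ k) x - g x) 2
      volume) atTop (𝓝 0)) :
    Tendsto (fun k => ∫ x, ‖fderiv ℝ (φ k) x‖ ^ 2) atTop (𝓝 (∫ x, ‖g x‖ ^ 2)) := by
  have h := tendsto_inner (fun k => (hφ k).memLp_grad) hg (fun k => (hφ k).memLp_grad) hg t1 t1
  simp only [real_inner_self_eq_norm_sq, grad_norm] at h
  exact h

lemma memLp_inner {g : E → E} (hg : MemLp g 2 volume) (e : E) :
    MemLp (fun x => inner ℝ (g x) e) 2 volume := by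
  apply MemLp.of_le_mul hg (hg.1.inner aestronglyMeasurable_const) (c := ‖e‖)
  refine Eventually.of_forall fun x => ?_
  rw [mul_comm]
  exact norm_inner_le_norm _ _

lemma tendsto_dir_sq {S : Set E} {φ : ℕ → E → ℝ} {g : E → E} (hφ : ∀ k, Tst S (φ k))
    (hg : MemLp g 2 volume) (t1 : Tendsto (fun k => eLpNorm (fun x => gradient (φ k) x - g x) 2
      volume) atTop (𝓝 0)) (e : E) :
    Tendsto (fun k => ∫ x, (fderiv ℝ (φ k) x e) ^ 2) atTop (𝓝 (∫ x, (inner ℝ (g x) e) ^ 2)) := by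
  have t2 : Tendsto (fun k => eLpNorm (fun x => inner ℝ (gradient (φ k) x) e - inner ℝ (g x) e) 2
      volume) atTop (𝓝 0) := by
    apply tendsto_zero_of_le (c := ‖e‖) _ t1
    intro k x
    rw [← inner_sub_left, mul_comm]
    exact norm_inner_le_norm _ _
  have h := tendsto_inner (fun k => memLp_inner (hφ k).memLp_grad e) (memLp_inner hg e)
    (fun k => memLp_inner (hφ k).memLp_grad e) (memLp_inner hg e) t2 t2
  simp only [grad_inner] at h
  simpa [sq] using h

/-- The slab inequality for limits of test functions. -/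
theorem slab_appr {Ω : Set E} (hΩ : Convex ℝ Ω) {lam : ℝ}
    (H : ∀ v : E → ℝ, Tst Ω v → lam * ∫ x, v x ^ 2 ≤ ∫ x, ‖fderiv ℝ v x‖ ^ 2)
    {e : E} (he : ‖e‖ = 1) (x0 : E) {d : ℝ} (hd : 0 < d) (hp : x0 + d • e ∈ Ω)
    {l R : ℝ} (hl : 0 < l) (h2 : l ≤ d / 4) (hRd : R ≤ d / 4)
    {w : E → ℝ} {g : E → E} (h : Appr (Ω ∩ closedBall x0 R) w g) :
    lam * ∫ x, w x ^ 2 ≤ CS (Module.finrank ℝ (span ℝ {e})ᗮ) / l ^ 2 * (∫ x, w x ^ 2) +
      (1 + 5 * l / d + 8 * R ^ 2 / d ^ 2) *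
        ((∫ x, ‖g x‖ ^ 2) - ∫ x, (inner ℝ (g x) e) ^ 2) := by
  obtain ⟨hw, hg, φ, hφ, t1, t2⟩ := h
  have a1 := tendsto_sq hφ hw t1
  have a2 := tendsto_grad_sq hφ hg t2
  have a3 := tendsto_dir_sq hφ hg t2 e
  have key : ∀ k, lam * ∫ x, φ k x ^ 2 ≤ CS (Module.finrank ℝ (span ℝ {e})ᗮ) / l ^ 2 *
      (∫ x, φ k x ^ 2) + (1 + 5 * l / d + 8 * R ^ 2 / d ^ 2) *
        ((∫ x, ‖fderiv ℝ (φ k) x‖ ^ 2) - ∫ x, (fderiv ℝ (φ k) x e) ^ 2) := by
    intro k
    have h3 := slab_euclid hΩ (fun v h1 h2 h3 => H v ⟨h1, h2, h3⟩) he x0 hd hp (hφ k).smooth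
      (hφ k).cs ((hφ k).sub.trans inter_subset_left) hl h2 hRd (fun x hx => by
        have := ((hφ k).sub hx).2
        rwa [mem_closedBall, dist_eq_norm] at this)
    have i1 : Integrable (fun x => ‖fderiv ℝ (φ k) x‖ ^ 2) := by
      have := ((hφ k).memLp_grad).integrable_norm_pow (by norm_num)
      simpa [grad_norm] using this
    have i2 : Integrable (fun x => (fderiv ℝ (φ k) x e) ^ 2) := by
      have := (memLp_inner (hφ k).memLp_grad e).integrable_sq
      simpa [grad_inner] using this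
    rw [integral_sub i1 i2] at h3
    exact h3
  exact le_of_tendsto_of_tendsto' (a1.const_mul lam)
    ((a1.const_mul _).add ((a2.sub a3).const_mul _)) key

/-- Integration along a direction against the derivative of `arctan`. -/
lemma line_test {S : Set E} {φ : E → ℝ} (hφ : Tst S φ) (e x0 : E) (he : ‖e‖ = 1) {ρ s : ℝ}
    (hρ : 0 < ρ) (hs : 0 < s) :
    ∫ x, (1 / (1 + (inner ℝ e (x - x0) / ρ) ^ 2)) * φ x ^ 2 ≤
      Real.pi * ρ / 2 * (s * (∫ x, φ x ^ 2) + s⁻¹ * ∫ x, (fderiv ℝ φ x e) ^ 2) := by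
  set A : E → ℝ := fun x => Real.arctan (inner ℝ e (x - x0) / ρ) with hA
  have hAc : ContDiff ℝ ∞ A := by
    rw [hA]
    exact Real.contDiff_arctan.comp
      ((contDiff_const.inner ℝ (contDiff_id.sub contDiff_const)).div_const _)
  have hAd : ∀ x, fderiv ℝ A x e = ρ⁻¹ * (1 / (1 + (inner ℝ e (x - x0) / ρ) ^ 2)) := by
    intro x
    have h1 : HasFDerivAt (fun x : E => inner ℝ e (x - x0) / ρ) (ρ⁻¹ • innerSL ℝ e) x := by
      have h2 : (fun x : E => inner ℝ e (x - x0) / ρ) =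
          fun x => (ρ⁻¹ • innerSL ℝ e) x - inner ℝ e x0 / ρ := by
        ext y
        simp [inner_sub_right]
        ring
      rw [h2]
      exact (ρ⁻¹ • innerSL ℝ e).hasFDerivAt.sub_const _
    have h3 := (Real.hasDerivAt_arctan (inner ℝ e (x - x0) / ρ)).comp_hasFDerivAt x h1
    have h4 : fderiv ℝ A x = (1 / (1 + (inner ℝ e (x - x0) / ρ) ^ 2)) • (ρ⁻¹ • innerSL ℝ e) :=
      h3.fderiv
    rw [h4]
    simp [he]
    ring
  have hφ2 : ContDiff ℝ ∞ (fun x => φ x ^ 2) := hφ.smooth.pow 2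
  have hφ2c : HasCompactSupport (fun x => φ x ^ 2) :=
    hφ.cs.comp_left (g := fun x : ℝ => x ^ 2) (by norm_num)
  have hdφ : ∀ x, fderiv ℝ (fun x => φ x ^ 2) x e = 2 * φ x * fderiv ℝ φ x e := by
    intro x
    have h1 := ((hφ.diff x).hasFDerivAt.pow 2).fderiv
    rw [h1]
    simp
  have cA := hAc.continuous
  have cA' : Continuous fun x => fderiv ℝ A x e :=
    (hAc.continuous_fderiv (by simp)).clm_apply continuous_const
  have cφ := hφ.smooth.continuous
  have cφ' : Continuous fun x => fderiv ℝ φ x e :=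
    (hφ.smooth.continuous_fderiv (by simp)).clm_apply continuous_const
  have i1 : Integrable (fun x => fderiv ℝ (fun x => φ x ^ 2) x e * A x) := by
    apply Continuous.integrable_of_hasCompactSupport
    · exact ((hφ2.continuous_fderiv (by simp)).clm_apply continuous_const).mul cA
    · apply HasCompactSupport.mul_right
      exact (hφ2c.fderiv (𝕜 := ℝ)).comp_left (g := fun B : E →L[ℝ] ℝ => B e) (by simp)
  have i2 : Integrable (fun x => φ x ^ 2 * fderiv ℝ A x e) := by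
    apply Continuous.integrable_of_hasCompactSupport
    · exact hφ2.continuous.mul cA'
    · exact hφ2c.mul_right
  have i3 : Integrable (fun x => φ x ^ 2 * A x) := by
    apply Continuous.integrable_of_hasCompactSupport
    · exact hφ2.continuous.mul cA
    · exact hφ2c.mul_right
  have ibp := integral_mul_fderiv_eq_neg_fderiv_mul_of_integrable (μ := (volume : Measure E))
    (v := e) i1 i2 i3 (fun x _ => (hφ2.differentiable (by simp)) x)
    (fun x _ => (hAc.differentiable (by simp)) x)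
  have j1 : Integrable (fun x => φ x ^ 2) := hφ.memLp.integrable_sq
  have j2 : Integrable (fun x => (fderiv ℝ φ x e) ^ 2) := by
    have := (memLp_inner hφ.memLp_grad e).integrable_sq
    simpa [grad_inner] using this
  have e1 : ∫ x, (1 / (1 + (inner ℝ e (x - x0) / ρ) ^ 2)) * φ x ^ 2 =
      ρ * ∫ x, φ x ^ 2 * fderiv ℝ A x e := by
    rw [← integral_const_mul]
    congr 1
    ext x
    rw [hAd]
    field_simp
  rw [e1, ibp, ← integral_neg, ← integral_const_mul, ← integral_const_mul, ← integral_const_mul,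
    ← integral_add (j1.const_mul _) (j2.const_mul _), ← integral_const_mul]
  apply integral_mono (i1.neg.const_mul _) (((j1.const_mul _).add (j2.const_mul _)).const_mul _)
  intro x
  simp only [Pi.neg_apply]
  rw [hdφ]
  have hAb : |A x| ≤ Real.pi / 2 := by
    rw [hA]
    exact abs_le.mpr ⟨(Real.neg_pi_div_two_lt_arctan _).le, (Real.arctan_lt_pi_div_two _).le⟩
  have h5 : -(2 * φ x * fderiv ℝ φ x e * A x) ≤ (s * φ x ^ 2 + s⁻¹ * (fderiv ℝ φ x e) ^ 2) *
      (Real.pi / 2) := by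
    have h6 : -(2 * φ x * fderiv ℝ φ x e * A x) ≤ |2 * φ x * fderiv ℝ φ x e| * |A x| := by
      rw [← abs_mul]
      exact neg_le_abs _
    have h7 : |2 * φ x * fderiv ℝ φ x e| ≤ s * φ x ^ 2 + s⁻¹ * (fderiv ℝ φ x e) ^ 2 := by
      have h8 : ∀ a b : ℝ, 2 * a * b ≤ s * a ^ 2 + s⁻¹ * b ^ 2 := by
        intro a b
        have h9 : 0 ≤ s⁻¹ * (s * a - b) ^ 2 := by positivity
        have h10 : s⁻¹ * (s * a - b) ^ 2 = s * a ^ 2 + s⁻¹ * b ^ 2 - 2 * a * b := by
          field_simp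
          ring
        linarith
      rw [abs_le]
      constructor
      · have := h8 (-φ x) (fderiv ℝ φ x e)
        nlinarith
      · exact h8 _ _
    calc _ ≤ _ := h6
      _ ≤ (s * φ x ^ 2 + s⁻¹ * (fderiv ℝ φ x e) ^ 2) * (Real.pi / 2) := by
        apply mul_le_mul h7 hAb (abs_nonneg _)
        positivity
  calc ρ * -(2 * φ x * fderiv ℝ φ x e * A x) ≤ ρ * ((s * φ x ^ 2 + s⁻¹ * (fderiv ℝ φ x e) ^ 2) *
        (Real.pi / 2)) := mul_le_mul_of_nonneg_left h5 hρ.le
    _ = _ := by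
        simp only [Pi.add_apply]
        ring

lemma line_appr {S : Set E} {w : E → ℝ} {g : E → E} (h : Appr S w g) (e x0 : E) (he : ‖e‖ = 1)
    {ρ s : ℝ} (hρ : 0 < ρ) (hs : 0 < s) :
    ∫ x, (1 / (1 + (inner ℝ e (x - x0) / ρ) ^ 2)) * w x ^ 2 ≤
      Real.pi * ρ / 2 * (s * (∫ x, w x ^ 2) + s⁻¹ * ∫ x, (inner ℝ (g x) e) ^ 2) := by
  obtain ⟨hw, hg, φ, hφ, t1, t2⟩ := h
  have a1 := tendsto_sq hφ hw t1
  have a3 := tendsto_dir_sq hφ hg t2 e
  have a4 := tendsto_sq_weight hφ hw t1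
    (θ := fun x => 1 / (1 + (inner ℝ e (x - x0) / ρ) ^ 2)) (c := 1)
    (by
      apply Continuous.div continuous_const (by fun_prop)
      intro x
      positivity)
    (by
      intro x
      rw [abs_of_nonneg (by positivity)]
      rw [div_le_one (by positivity)]
      nlinarith [sq_nonneg (inner ℝ e (x - x0) / ρ)])
  exact le_of_tendsto_of_tendsto' a4
    (((a1.const_mul _).add (a3.const_mul _)).const_mul _)
    (fun k => line_test (hφ k) e x0 he hρ hs)

end Pool.Agent.U582.SN
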