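import Pool.Agent.U582.SN.Mono

set_option autoImplicit false
set_option linter.unusedSectionVars false

open MeasureTheory Set Filter Topology Metric
open scoped ENNReal NNReal ContDiff

namespace Pool.Agent.U582.SN

section bumps

variable (E : Type*) [NormedAddCommGroup E] [InnerProductSpace ℝ E] [FiniteDimensional ℝ E]
  [MeasurableSpace E] [BorelSpace E]

noncomputable def bp1 : ContDiffBump (0 : E) := ⟨1/4, 1/2, by norm_num, by norm_num⟩
noncomputable def bp2 : ContDiffBump (0 : E) := ⟨1, 2, by norm_num, by norm_num⟩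

noncomputable def b0 : ℝ := ∫ x, (bp1 E x) ^ 2
noncomputable def b1 : ℝ := ∫ x, ‖fderiv ℝ (bp1 E) x‖ ^ 2

variable {E} in
lemma bp_smooth (f : ContDiffBump (0 : E)) : ContDiff ℝ ∞ (f : E → ℝ) := f.contDiff

lemma b0_pos : 0 < b0 E := by
  unfold b0
  apply Continuous.integral_pos_of_hasCompactSupport_nonneg_nonzero (x := (0:E))
  · exact (bp_smooth (bp1 E)).continuous.pow 2
  · exact (bp1 E).hasCompactSupport.comp_left (g := fun x : ℝ => x^2) (by norm_num)
  · intro x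
    positivity
  · have : bp1 E (0:E) = 1 :=
      (bp1 E).one_of_mem_closedBall (mem_closedBall_self (by show (0:ℝ) ≤ 1/4; norm_num))
    rw [this]
    norm_num

lemma b1_nonneg : 0 ≤ b1 E := integral_nonneg fun _ => sq_nonneg _

lemma exists_c2 : ∃ c : ℝ, 0 ≤ c ∧ ∀ x, ‖fderiv ℝ (bp2 E) x‖ ≤ c := by
  obtain ⟨c, hc⟩ := ((bp_smooth (bp2 E)).continuous_fderiv
    (by simp)).bounded_above_of_compact_support ((bp2 E).hasCompactSupport.fderiv (𝕜 := ℝ))
  exact ⟨c, (norm_nonneg _).trans (hc 0), hc⟩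

end bumps

variable {E : Type*} [NormedAddCommGroup E] [InnerProductSpace ℝ E] [FiniteDimensional ℝ E]
  [MeasurableSpace E] [BorelSpace E]

/-- a rescaled function -/
noncomputable def resc (f : E → ℝ) (z : E) (r : ℝ) (x : E) : ℝ := f (r⁻¹ • (x - z))

lemma resc_contDiff {f : E → ℝ} (hf : ContDiff ℝ ∞ f) (z : E) (r : ℝ) :
    ContDiff ℝ ∞ (resc f z r) :=
  hf.comp (contDiff_const.smul (contDiff_id.sub contDiff_const))

lemma resc_fderiv {f : E → ℝ} (hf : ContDiff ℝ ∞ f) (z : E) {r : ℝ} (hr : 0 < r) (x : E) :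
    ‖fderiv ℝ (resc f z r) x‖ = r⁻¹ * ‖fderiv ℝ f (r⁻¹ • (x - z))‖ := by
  have h1 : HasFDerivAt (fun x : E => r⁻¹ • (x - z)) (r⁻¹ • ContinuousLinearMap.id ℝ E) x :=
    ((hasFDerivAt_id x).sub_const z).const_smul r⁻¹
  have h2 : HasFDerivAt f (fderiv ℝ f (r⁻¹ • (x - z))) (r⁻¹ • (x - z)) :=
    (hf.differentiable (by simp)).differentiableAt.hasFDerivAt
  have h3 : fderiv ℝ (resc f z r) x =
      (fderiv ℝ f (r⁻¹ • (x - z))).comp (r⁻¹ • ContinuousLinearMap.id ℝ E) :=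
    (HasFDerivAt.comp x (g := f) (f := fun x : E => r⁻¹ • (x - z)) h2 h1).fderiv
  rw [h3, ContinuousLinearMap.comp_smul, ContinuousLinearMap.comp_id, norm_smul,
    Real.norm_eq_abs, abs_of_pos (by positivity)]

lemma resc_tsupport {c : E} (f : ContDiffBump (0 : E)) (z : E) {r : ℝ} (hr : 0 < r) :
    tsupport (resc f z r) ⊆ closedBall z (f.rOut * r) := by
  apply closure_minimal _ isClosed_closedBall
  intro x hx
  rw [Function.mem_support] at hx
  by_contra hx2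
  apply hx
  unfold resc
  apply f.zero_of_le_dist
  rw [dist_zero_right, norm_smul, Real.norm_eq_abs, abs_of_pos (by positivity)]
  rw [mem_closedBall, dist_eq_norm, not_le] at hx2
  rw [← div_eq_inv_mul, le_div_iff₀ hr]
  exact hx2.le

/-- upper bound for the first eigenvalue from an inscribed ball -/
lemma lam_le {Ω : Set E} {lam : ℝ}
    (H : ∀ v : E → ℝ, Tst Ω v → lam * ∫ x, v x ^ 2 ≤ ∫ x, ‖fderiv ℝ v x‖ ^ 2)
    {z : E} {r : ℝ} (hr : 0 < r) (hb : ball z r ⊆ Ω) : lam ≤ (b1 E / b0 E) / r ^ 2 := by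
  have hsm := bp_smooth (bp1 E)
  have hts : tsupport (resc (bp1 E) z r) ⊆ closedBall z (1 / 2 * r) :=
    resc_tsupport (c := z) (bp1 E) z hr
  have hT : Tst Ω (resc (bp1 E) z r) := by
    refine ⟨resc_contDiff hsm z r, ?_, ?_⟩
    · exact (isCompact_closedBall z (1 / 2 * r)).of_isClosed_subset (isClosed_tsupport _) hts
    · refine hts.trans ((closedBall_subset_ball ?_).trans hb)
      linarith
  have h1 := H _ hT
  have e1 := int_scale (fun x => resc (bp1 E) z r x ^ 2) z hr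
  have e2 := int_scale (fun x => ‖fderiv ℝ (resc (bp1 E) z r) x‖ ^ 2) z hr
  have s1 : ∀ y : E, resc (bp1 E) z r (z + r • y) = bp1 E y := by
    intro y
    unfold resc
    rw [add_sub_cancel_left, smul_smul, inv_mul_cancel₀ hr.ne', one_smul]
  have s2 : ∀ y : E, ‖fderiv ℝ (resc (bp1 E) z r) (z + r • y)‖ ^ 2 =
      (r⁻¹) ^ 2 * ‖fderiv ℝ (bp1 E) y‖ ^ 2 := by
    intro y
    rw [resc_fderiv hsm z hr, add_sub_cancel_left, smul_smul, inv_mul_cancel₀ hr.ne', one_smul,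
      mul_pow]
  simp only [s1] at e1
  simp only [s2] at e2
  rw [integral_const_mul] at e2
  have hb0 := b0_pos E
  have hrn : (0:ℝ) < r ^ Module.finrank ℝ E := by positivity
  have e1' : ∫ x, resc (bp1 E) z r x ^ 2 = r ^ Module.finrank ℝ E * b0 E := by
    unfold b0
    rw [e1]
    field_simp
  have e2' : ∫ x, ‖fderiv ℝ (resc (bp1 E) z r) x‖ ^ 2 =
      r ^ Module.finrank ℝ E * ((r⁻¹) ^ 2 * b1 E) := by
    unfold b1
    rw [e2]
    field_simp
  rw [e1', e2'] at h1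
  have h2 : r ^ Module.finrank ℝ E * (lam * b0 E) ≤
      r ^ Module.finrank ℝ E * ((r⁻¹) ^ 2 * b1 E) := by
    calc _ = lam * (r ^ Module.finrank ℝ E * b0 E) := by ring
      _ ≤ _ := h1
  have h3 := le_of_mul_le_mul_left h2 hrn
  rw [le_div_iff₀ (by positivity), le_div_iff₀ hb0]
  calc lam * r ^ 2 * b0 E = r ^ 2 * (lam * b0 E) := by ring
    _ ≤ r ^ 2 * ((r⁻¹) ^ 2 * b1 E) := mul_le_mul_of_nonneg_left h3 (by positivity)
    _ = b1 E := by field_simp

lemma CS_mono {m n : ℕ} (h : m ≤ n) : CS m ≤ CS n := by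
  unfold CS
  have h1 : ((3:ℝ) / 2) ^ m ≤ (3 / 2) ^ n := pow_le_pow_right₀ (by norm_num) h
  have h2 : 0 ≤ X1 / X0 := div_nonneg X1_nonneg X0_pos.le
  nlinarith

/-- bound of the longitudinal energy of the localized function -/
lemma long_energy {Ω : Set E} (hΩ : Convex ℝ Ω) {lam : ℝ} (hlam : 0 ≤ lam)
    (H : ∀ v : E → ℝ, Tst Ω v → lam * ∫ x, v x ^ 2 ≤ ∫ x, ‖fderiv ℝ v x‖ ^ 2)
    {u : E → ℝ} {G : E → E} (h : Eig Ω lam u G) {x0 p : E} (hp : p ∈ Ω) {D l ρ C1 c2 : ℝ}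
    (hC1 : lam ≤ C1 / ρ ^ 2) (hρ : 0 < ρ) (hl : 0 < l) (hD : 0 < D) (hcube : l ^ 3 = ρ ^ 2 * D)
    (hpd : D / 3 ≤ ‖p - x0‖) (hlD : 24 * l ≤ D) (hc20 : 0 ≤ c2)
    (hc2 : ∀ x, ‖fderiv ℝ (bp2 E) x‖ ≤ c2) :
    ∃ (e : E) (w : E → ℝ) (g : E → E), ‖e‖ = 1 ∧ Appr Ω w g ∧
      (∀ x, w x = resc (bp2 E) x0 l x * u x) ∧
      ∫ x, w x ^ 2 ≤ ∫ x, u x ^ 2 ∧
      ∫ x, (inner ℝ (g x) e) ^ 2 ≤
        (CS (Module.finrank ℝ E) + 3 * c2 ^ 2 + 27 * C1) / l ^ 2 * ∫ x, u x ^ 2 := by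
  set d := ‖p - x0‖ with hd
  have hd0 : 0 < d := by linarith
  set e : E := d⁻¹ • (p - x0) with he
  have hen : ‖e‖ = 1 := by
    rw [he, norm_smul, norm_inv, Real.norm_eq_abs, abs_of_pos hd0, ← hd]
    field_simp
  have hpe : x0 + d • e = p := by
    rw [he, smul_smul, mul_inv_cancel₀ hd0.ne', one_smul]
    abel
  set η := resc (bp2 E) x0 l with hη
  have hsm := bp_smooth (bp2 E)
  have hηs : ContDiff ℝ ∞ η := resc_contDiff hsm x0 l
  have hη1 : ∀ x, |η x| ≤ 1 := by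
    intro x
    rw [hη]
    unfold resc
    rw [abs_of_nonneg ((bp2 E).nonneg)]
    exact (bp2 E).le_one
  have hη2 : ∀ x, ‖gradient η x‖ ≤ c2 / l := by
    intro x
    rw [grad_norm, hη, resc_fderiv hsm x0 hl, div_eq_inv_mul]
    exact mul_le_mul_of_nonneg_left (hc2 _) (by positivity)
  have hm1 : ∀ x, |η x| ≤ max 1 (c2 / l) := fun x => (hη1 x).trans (le_max_left _ _)
  have hm2 : ∀ x, ‖gradient η x‖ ≤ max 1 (c2 / l) := fun x => (hη2 x).trans (le_max_right _ _)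
  have hts : tsupport η ⊆ closedBall x0 (2 * l) := resc_tsupport (c := x0) (bp2 E) x0 hl
  have hA := h.appr.mul hηs hm1 hm2
  have hA1 : Appr (Ω ∩ closedBall x0 (2 * l)) (fun x => η x * u x)
      (fun x => η x • G x + u x • gradient η x) := hA.mono (inter_subset_inter_right _ hts)
  have hA2 : Appr Ω (fun x => η x * u x)
      (fun x => η x • G x + u x • gradient η x) := hA.mono inter_subset_left
  have hu := h.appr.1
  have iu : Integrable (fun x => u x ^ 2) := hu.integrable_sq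
  have iw : Integrable (fun x => (η x * u x) ^ 2) := hA2.1.integrable_sq
  have hW : ∫ x, (η x * u x) ^ 2 ≤ ∫ x, u x ^ 2 := by
    apply integral_mono iw iu
    intro x
    simp only [mul_pow]
    have : η x ^ 2 ≤ 1 := by
      rw [← sq_abs]
      exact pow_le_one₀ (abs_nonneg _) (hη1 x)
    exact mul_le_of_le_one_left (sq_nonneg _) this
  refine ⟨e, fun x => η x * u x, fun x => η x • G x + u x • gradient η x, hen, hA2,
    fun x => rfl, hW, ?_⟩
  have hslab := slab_appr hΩ H hen x0 hd0 (by rw [hpe]; exact hp) (l := l) (R := 2 * l) hl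
    (by linarith) (by linarith) hA1
  have hims := h.ims hηs hm1 hm2
  have hN : ∫ x, u x ^ 2 * ‖gradient η x‖ ^ 2 ≤ (c2 / l) ^ 2 * ∫ x, u x ^ 2 := by
    rw [← integral_const_mul]
    apply integral_mono_of_nonneg
    · exact Eventually.of_forall fun x => by positivity
    · exact iu.const_mul _
    · refine Eventually.of_forall fun x => ?_
      simp only
      rw [mul_comm]
      have := pow_le_pow_left₀ (norm_nonneg _) (hη2 x) 2
      exact mul_le_mul_of_nonneg_right this (sq_nonneg _)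
  have hK : CS (Module.finrank ℝ (Submodule.span ℝ {e})ᗮ) ≤ CS (Module.finrank ℝ E) :=
    CS_mono (Submodule.finrank_le _)
  rw [hims] at hslab
  have hL0 : 0 ≤ ∫ x, (inner ℝ (η x • G x + u x • gradient η x) e) ^ 2 :=
    integral_nonneg fun _ => sq_nonneg _
  have hW0 : 0 ≤ ∫ x, (η x * u x) ^ 2 := integral_nonneg fun _ => sq_nonneg _
  have hM0 : 0 ≤ ∫ x, u x ^ 2 := integral_nonneg fun _ => sq_nonneg _
  have hK0 := CS_nonneg (Module.finrank ℝ (Submodule.span ℝ {e})ᗮ)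
  generalize CS (Module.finrank ℝ (Submodule.span ℝ {e})ᗮ) = K' at *
  generalize CS (Module.finrank ℝ E) = K at *
  generalize (∫ x, (inner ℝ (η x • G x + u x • gradient η x) e) ^ 2) = L at *
  generalize (∫ x, (η x * u x) ^ 2) = W at *
  generalize (∫ x, u x ^ 2) = M at *
  generalize (∫ x, u x ^ 2 * ‖gradient η x‖ ^ 2) = N at *
  -- arithmetic
  set q := l / d with hq
  have hq0 : 0 < q := by positivity
  have hq8 : q ≤ 1 / 8 := by
    rw [hq, div_le_iff₀ hd0]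
    linarith
  have hqD : q ≤ 3 * (l / D) := by
    rw [hq, div_le_iff₀ hd0]
    have : 3 * (l / D) * d = l * (3 * d / D) := by ring
    rw [this]
    have h3 : 1 ≤ 3 * d / D := by
      rw [le_div_iff₀ hD]
      linarith
    nlinarith
  have hκ : (1 + 5 * l / d + 8 * (2 * l) ^ 2 / d ^ 2) = 1 + 5 * q + 32 * q ^ 2 := by
    rw [hq]
    ring
  rw [hκ] at hslab
  have hC10 : 0 ≤ C1 := by
    have h3 : 0 ≤ C1 / ρ ^ 2 := hlam.trans hC1
    by_contra hneg
    have : C1 / ρ ^ 2 < 0 := div_neg_of_neg_of_pos (not_le.mp hneg) (by positivity)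
    linarith
  have k1 : (5 * q + 32 * q ^ 2) * lam ≤ 27 * C1 / l ^ 2 := by
    have a1 : 5 * q + 32 * q ^ 2 ≤ 9 * q := by nlinarith
    have a2 : 9 * q ≤ 27 * (l / D) := by linarith
    calc (5 * q + 32 * q ^ 2) * lam ≤ (27 * (l / D)) * (C1 / ρ ^ 2) := by
          apply mul_le_mul (a1.trans a2) hC1 hlam (by positivity)
      _ = 27 * C1 / l ^ 2 := by
          have e3 : (27 * (l / D)) * (C1 / ρ ^ 2) = 27 * C1 * (l / (ρ ^ 2 * D)) := by
            field_simp
          rw [e3, ← hcube]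
          field_simp
  have k2 : (1 + 5 * q + 32 * q ^ 2) ≤ 3 := by nlinarith
  have k3 : (1:ℝ) ≤ 1 + 5 * q + 32 * q ^ 2 := by nlinarith [sq_nonneg q]
  have k4 : L ≤ (1 + 5 * q + 32 * q ^ 2) * L := le_mul_of_one_le_left hL0 k3
  have k5 : (1 + 5 * q + 32 * q ^ 2) * N ≤ 3 * ((c2 / l) ^ 2 * M) := by
    have b1 : 0 ≤ (c2 / l) ^ 2 * M := by positivity
    calc (1 + 5 * q + 32 * q ^ 2) * N ≤ (1 + 5 * q + 32 * q ^ 2) * ((c2 / l) ^ 2 * M) :=
          mul_le_mul_of_nonneg_left hN (by linarith)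
      _ ≤ 3 * ((c2 / l) ^ 2 * M) := mul_le_mul_of_nonneg_right k2 b1
  have k6 : K' / l ^ 2 * W ≤ K / l ^ 2 * M := by
    have : K' / l ^ 2 ≤ K / l ^ 2 := by gcongr
    exact mul_le_mul this hW hW0 ((div_nonneg hK0 (sq_nonneg l)).trans this)
  have k7 : (5 * q + 32 * q ^ 2) * lam * W ≤ 27 * C1 / l ^ 2 * M :=
    mul_le_mul k1 hW hW0 (by positivity)
  have k8 : (1 + 5 * q + 32 * q ^ 2) * L ≤ K' / l ^ 2 * W +
      (5 * q + 32 * q ^ 2) * lam * W + (1 + 5 * q + 32 * q ^ 2) * N := by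
    nlinarith
  calc L ≤ K / l ^ 2 * M + 27 * C1 / l ^ 2 * M + 3 * ((c2 / l) ^ 2 * M) := by linarith
    _ = (K + 3 * c2 ^ 2 + 27 * C1) / l ^ 2 * M := by
        field_simp
        ring

/-- The Gaussian mass bound. -/
lemma gauss_mass {Ω : Set E} (hΩ : Convex ℝ Ω) {lam : ℝ} (hlam : 0 ≤ lam)
    (H : ∀ v : E → ℝ, Tst Ω v → lam * ∫ x, v x ^ 2 ≤ ∫ x, ‖fderiv ℝ v x‖ ^ 2)
    {u : E → ℝ} {G : E → E} (h : Eig Ω lam u G) {x0 p : E} (hp : p ∈ Ω) {D l ρ C1 c2 : ℝ}
    (hC10 : 0 ≤ C1)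
    (hC1 : lam ≤ C1 / ρ ^ 2) (hρ : 0 < ρ) (hl : 0 < l) (hD : 0 < D) (hcube : l ^ 3 = ρ ^ 2 * D)
    (hρl : ρ ≤ l)
    (hpd : D / 3 ≤ ‖p - x0‖) (hc20 : 0 ≤ c2)
    (hc2 : ∀ x, ‖fderiv ℝ (bp2 E) x‖ ≤ c2) :
    ∫ x, Z x0 ρ x * u x ^ 2 ≤
      (Real.pi * (1 + (CS (Module.finrank ℝ E) + 3 * c2 ^ 2 + 27 * C1)) + 7) * (ρ / l) *
        ∫ x, u x ^ 2 := by
  set C3 := CS (Module.finrank ℝ E) + 3 * c2 ^ 2 + 27 * C1 with hC3
  have hC30 : 0 ≤ C3 := by
    have := CS_nonneg (Module.finrank ℝ E)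
    positivity
  have hM0 : 0 ≤ ∫ x, u x ^ 2 := integral_nonneg fun _ => sq_nonneg _
  have hu := h.appr.1
  have iu : Integrable (fun x => u x ^ 2) := hu.integrable_sq
  have iZ : Integrable (fun x => Z x0 ρ x * u x ^ 2) := by
    apply Integrable.bdd_mul (c := 1) iu (Z_contDiff x0 ρ).continuous.aestronglyMeasurable
    refine Eventually.of_forall fun x => ?_
    rw [Real.norm_eq_abs, abs_of_pos (Z_pos _ _ _)]
    exact Z_le_one _ _ _
  have hratio : 0 < ρ / l := by positivity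
  by_cases hcase : 24 * l ≤ D
  · obtain ⟨e, w, g, he, hA, hw, hW, hL⟩ := long_energy hΩ hlam H h hp hC1 hρ hl hD hcube hpd
      hcase hc20 hc2
    have hline := line_appr hA e x0 he hρ (s := l⁻¹) (by positivity)
    have iw : Integrable (fun x => w x ^ 2) := hA.1.integrable_sq
    have iθ : Integrable (fun x => (1 / (1 + (inner ℝ e (x - x0) / ρ) ^ 2)) * w x ^ 2) := by
      apply Integrable.bdd_mul (c := 1) iw
      · apply Continuous.aestronglyMeasurable
        apply Continuous.div continuous_const (by fun_prop)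
        intro x
        positivity
      · refine Eventually.of_forall fun x => ?_
        rw [Real.norm_eq_abs, abs_of_nonneg (by positivity), div_le_one (by positivity)]
        nlinarith [sq_nonneg (inner ℝ e (x - x0) / ρ)]
    have hexp : ∀ a : ℝ, 0 ≤ a → Real.exp (-(a / 2)) ≤ 2 * (1 / (1 + a)) := by
      intro a ha
      rw [Real.exp_neg]
      have h1 := Real.add_one_le_exp (a / 2)
      have h2 : (1 + a) / 2 ≤ Real.exp (a / 2) := by linarith
      calc (Real.exp (a / 2))⁻¹ ≤ ((1 + a) / 2)⁻¹ := inv_anti₀ (by positivity) h2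
        _ = 2 * (1 / (1 + a)) := by field_simp
    have hpt : ∀ x, Z x0 ρ x * u x ^ 2 ≤
        2 * ((1 / (1 + (inner ℝ e (x - x0) / ρ) ^ 2)) * w x ^ 2) + 2 * (ρ / l) * u x ^ 2 := by
      intro x
      by_cases hx : ‖x - x0‖ ≤ l
      · have hη : resc (bp2 E) x0 l x = 1 := by
          unfold resc
          apply (bp2 E).one_of_mem_closedBall
          rw [mem_closedBall, dist_zero_right, norm_smul, Real.norm_eq_abs,
            abs_of_pos (by positivity)]
          show l⁻¹ * ‖x - x0‖ ≤ 1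
          rw [← div_eq_inv_mul, div_le_one hl]
          exact hx
        rw [hw x, hη, one_mul]
        have h1 : Z x0 ρ x ≤ 2 * (1 / (1 + (inner ℝ e (x - x0) / ρ) ^ 2)) := by
          refine le_trans ?_ (hexp _ (sq_nonneg (inner ℝ e (x - x0) / ρ)))
          unfold Z
          apply Real.exp_le_exp.mpr
          have h2 : |inner ℝ e (x - x0)| ≤ ‖x - x0‖ := by
            have := abs_real_inner_le_norm e (x - x0)
            rwa [he, one_mul] at this
          have h3 : (inner ℝ e (x - x0)) ^ 2 ≤ ‖x - x0‖ ^ 2 := by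
            rw [← sq_abs]
            exact pow_le_pow_left₀ (abs_nonneg _) h2 2
          rw [neg_le_neg_iff, div_pow]
          have : inner ℝ e (x - x0) ^ 2 / ρ ^ 2 / 2 = inner ℝ e (x - x0) ^ 2 / (2 * ρ ^ 2) := by
            field_simp
          rw [this]
          gcongr
        have h4 := mul_le_mul_of_nonneg_right h1 (sq_nonneg (u x))
        have h5 : 0 ≤ 2 * (ρ / l) * u x ^ 2 := by positivity
        linarith
      · rw [not_le] at hx
        have h1 : Z x0 ρ x ≤ 2 * (ρ / l) := by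
          have h2 : Z x0 ρ x ≤ Real.exp (-((l / ρ) ^ 2 / 2)) := by
            unfold Z
            apply Real.exp_le_exp.mpr
            rw [neg_le_neg_iff, div_pow]
            have : l ^ 2 / ρ ^ 2 / 2 = l ^ 2 / (2 * ρ ^ 2) := by field_simp
            rw [this]
            gcongr
          have h3 := hexp ((l / ρ) ^ 2) (sq_nonneg _)
          have h4 : 1 / (1 + (l / ρ) ^ 2) ≤ ρ / l := by
            rw [div_le_div_iff₀ (by positivity) hl]
            have h5 : 1 ≤ l / ρ := by rw [le_div_iff₀ hρ]; linarith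
            have h6 : ρ * (1 + (l / ρ) ^ 2) = ρ + l * (l / ρ) := by field_simp
            rw [h6]
            nlinarith
          linarith
        have h5 := mul_le_mul_of_nonneg_right h1 (sq_nonneg (u x))
        have h6 : 0 ≤ 2 * ((1 / (1 + (inner ℝ e (x - x0) / ρ) ^ 2)) * w x ^ 2) := by positivity
        linarith
    have hint := integral_mono iZ ((iθ.const_mul 2).add (iu.const_mul (2 * (ρ / l)))) hpt
    simp only [Pi.add_apply] at hint
    rw [integral_add (iθ.const_mul 2) (iu.const_mul (2 * (ρ / l))), integral_const_mul,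
      integral_const_mul] at hint
    rw [inv_inv] at hline
    have h7 : l⁻¹ * (∫ x, w x ^ 2) + l * ∫ x, (inner ℝ (g x) e) ^ 2 ≤
        l⁻¹ * (1 + C3) * ∫ x, u x ^ 2 := by
      have h8 : l⁻¹ * (∫ x, w x ^ 2) ≤ l⁻¹ * ∫ x, u x ^ 2 :=
        mul_le_mul_of_nonneg_left hW (by positivity)
      have h9 : l * ∫ x, (inner ℝ (g x) e) ^ 2 ≤ l * (C3 / l ^ 2 * ∫ x, u x ^ 2) :=
        mul_le_mul_of_nonneg_left hL hl.le
      have h10 : l * (C3 / l ^ 2 * ∫ x, u x ^ 2) = l⁻¹ * C3 * ∫ x, u x ^ 2 := by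
        field_simp
      rw [h10] at h9
      calc _ ≤ l⁻¹ * (∫ x, u x ^ 2) + l⁻¹ * C3 * ∫ x, u x ^ 2 := add_le_add h8 h9
        _ = _ := by ring
    have h11 : Real.pi * ρ / 2 * (l⁻¹ * (∫ x, w x ^ 2) + l * ∫ x, (inner ℝ (g x) e) ^ 2) ≤
        Real.pi * ρ / 2 * (l⁻¹ * (1 + C3) * ∫ x, u x ^ 2) :=
      mul_le_mul_of_nonneg_left h7 (by positivity)
    calc ∫ x, Z x0 ρ x * u x ^ 2 ≤ 2 * (Real.pi * ρ / 2 * (l⁻¹ * (1 + C3) * ∫ x, u x ^ 2)) +
          2 * (ρ / l) * ∫ x, u x ^ 2 := by linarith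
      _ = (Real.pi * (1 + C3) + 2) * (ρ / l) * ∫ x, u x ^ 2 := by
          field_simp
      _ ≤ (Real.pi * (1 + C3) + 7) * (ρ / l) * ∫ x, u x ^ 2 := by
          gcongr
          norm_num
  · rw [not_le] at hcase
    have h1 : l ^ 2 ≤ 25 * ρ ^ 2 := by
      by_contra hc
      rw [not_le] at hc
      have h2 : 25 * ρ ^ 2 * l < l ^ 3 := by nlinarith
      rw [hcube] at h2
      nlinarith [sq_nonneg ρ, mul_pos hρ hρ]
    have h2 : l ≤ 5 * ρ := by
      nlinarith
    have h3 : 1 ≤ 5 * (ρ / l) := by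
      rw [← mul_div_assoc, le_div_iff₀ hl]
      linarith
    have h4 : ∫ x, Z x0 ρ x * u x ^ 2 ≤ ∫ x, u x ^ 2 := by
      apply integral_mono iZ iu
      intro x
      exact mul_le_of_le_one_left (sq_nonneg _) (Z_le_one _ _ _)
    have h5 : 1 ≤ (Real.pi * (1 + C3) + 7) * (ρ / l) := by
      have h6 : 0 ≤ Real.pi * (1 + C3) := by positivity
      nlinarith
    calc _ ≤ _ := h4
      _ ≤ _ := le_mul_of_one_le_left hM0 h5

end Pool.Agent.U582.SN
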