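import Pool.Agent.U582.SN.Gauss

set_option autoImplicit false
set_option linter.unusedSectionVars false

open MeasureTheory Set Filter Topology Metric
open scoped ENNReal NNReal ContDiff

namespace Pool.Agent.U582.SN

variable {E : Type*} [NormedAddCommGroup E] [InnerProductSpace ℝ E] [FiniteDimensional ℝ E]
  [MeasurableSpace E] [BorelSpace E]

/-- one step: the derivative inequality with an error -/
lemma step_deriv {Ω : Set E} {lam : ℝ} (hlam : 0 ≤ lam) {u : E → ℝ} {G : E → E}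
    (h : Eig Ω lam u G) {S : Set E} {φ : E → ℝ} (hφ : Tst S φ) (x0 : E) {r : ℝ} (hr : 0 < r)
    {δ δ' : ℝ} (hδ : ∫ x, ‖φ x • gradient φ x - u x • G x‖ ≤ δ)
    (hδ' : ∫ x, ‖φ x • φ x - u x • u x‖ ≤ δ') :
    ∫ x, φ x * inner ℝ (gradient φ x) (gradient (Z x0 r) x) ≤
      lam * (∫ x, Z x0 r x * φ x ^ 2) + (r⁻¹ * δ + lam * δ') := by
  have hZ := Z_contDiff x0 r
  have hc : ∀ x, |Z x0 r x| ≤ max 1 r⁻¹ := fun x => by
    rw [abs_of_pos (Z_pos _ _ _)]
    exact (Z_le_one _ _ _).trans (le_max_left _ _)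
  have hc' : ∀ x, ‖gradient (Z x0 r) x‖ ≤ max 1 r⁻¹ := fun x =>
    (Z_grad_norm x0 hr x).trans (le_max_right _ _)
  have hfl := h.flux hZ (fun x => (Z_pos _ _ _).le) hc hc'
  obtain ⟨⟨hu, hG, _⟩, _⟩ := h
  have hgc := grad_cont hZ
  -- first difference
  have i1 : Integrable (fun x => φ x * inner ℝ (gradient φ x) (gradient (Z x0 r) x)) := by
    have := int_inner hφ.memLp_grad (memLp_mul_bdd hgc hc' hφ.memLp)
    apply this.congr (Eventually.of_forall fun x => ?_)
    simp only [inner_smul_right]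
  have i2 : Integrable (fun x => u x * inner ℝ (G x) (gradient (Z x0 r) x)) := by
    have := int_inner hG (memLp_mul_bdd hgc hc' hu)
    apply this.congr (Eventually.of_forall fun x => ?_)
    simp only [inner_smul_right]
  have i3 : Integrable (fun x => Z x0 r x * φ x ^ 2) := by
    apply Continuous.integrable_of_hasCompactSupport
    · exact hZ.continuous.mul (hφ.smooth.continuous.pow 2)
    · apply HasCompactSupport.mul_left
      exact hφ.cs.comp_left (g := fun x : ℝ => x ^ 2) (by norm_num)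
  have i4 : Integrable (fun x => Z x0 r x * u x ^ 2) := by
    apply Integrable.bdd_mul (c := 1) hu.integrable_sq hZ.continuous.aestronglyMeasurable
    refine Eventually.of_forall fun x => ?_
    rw [Real.norm_eq_abs, abs_of_pos (Z_pos _ _ _)]
    exact Z_le_one _ _ _
  have i5 : Integrable (fun x => ‖φ x • gradient φ x - u x • G x‖) := by
    have a1 : Integrable (fun x => φ x • gradient φ x) := by
      apply Continuous.integrable_of_hasCompactSupport
      · exact hφ.smooth.continuous.smul (grad_cont hφ.smooth)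
      · exact hφ.cs.smul_right
    have a2 : Integrable (fun x => u x • G x) := by
      rw [← memLp_one_iff_integrable]
      exact MemLp.smul (p := 2) (q := 2) hG hu
    exact (a1.sub a2).norm
  have i6 : Integrable (fun x => ‖φ x • φ x - u x • u x‖) := by
    have a1 : Integrable (fun x => φ x • φ x) := by
      apply Continuous.integrable_of_hasCompactSupport
      · exact hφ.smooth.continuous.smul hφ.smooth.continuous
      · exact hφ.cs.smul_right
    have a2 : Integrable (fun x => u x • u x) := by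
      rw [← memLp_one_iff_integrable]
      exact MemLp.smul (p := 2) (q := 2) hu hu
    exact (a1.sub a2).norm
  have d1 : ∫ x, φ x * inner ℝ (gradient φ x) (gradient (Z x0 r) x) ≤
      (∫ x, u x * inner ℝ (G x) (gradient (Z x0 r) x)) + r⁻¹ * δ := by
    have : ∫ x, φ x * inner ℝ (gradient φ x) (gradient (Z x0 r) x) ≤
        ∫ x, (u x * inner ℝ (G x) (gradient (Z x0 r) x) +
          r⁻¹ * ‖φ x • gradient φ x - u x • G x‖) := by
      apply integral_mono i1 (i2.add (i5.const_mul _))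
      intro x
      simp only [Pi.add_apply]
      have e1 : φ x * inner ℝ (gradient φ x) (gradient (Z x0 r) x) -
          u x * inner ℝ (G x) (gradient (Z x0 r) x) =
          inner ℝ (φ x • gradient φ x - u x • G x) (gradient (Z x0 r) x) := by
        rw [inner_sub_left, inner_smul_left, inner_smul_left]
        simp
      have e2 := real_inner_le_norm (φ x • gradient φ x - u x • G x) (gradient (Z x0 r) x)
      have e3 := mul_le_mul_of_nonneg_left (Z_grad_norm x0 hr x)
        (norm_nonneg (φ x • gradient φ x - u x • G x))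
      nlinarith
    rw [integral_add i2 (i5.const_mul _), integral_const_mul] at this
    have h3 : r⁻¹ * ∫ x, ‖φ x • gradient φ x - u x • G x‖ ≤ r⁻¹ * δ :=
      mul_le_mul_of_nonneg_left hδ (by positivity)
    linarith
  have d2 : ∫ x, Z x0 r x * u x ^ 2 ≤ (∫ x, Z x0 r x * φ x ^ 2) + δ' := by
    have : ∫ x, Z x0 r x * u x ^ 2 ≤
        ∫ x, (Z x0 r x * φ x ^ 2 + ‖φ x • φ x - u x • u x‖) := by
      apply integral_mono i4 (i3.add i6)
      intro x
      simp only [Pi.add_apply]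
      rw [smul_eq_mul, smul_eq_mul, Real.norm_eq_abs]
      have e1 := neg_abs_le (φ x * φ x - u x * u x)
      have e2 := (Z_pos x0 r x)
      have e3 := Z_le_one x0 r x
      have e4 : Z x0 r x * (u x ^ 2 - φ x ^ 2) ≤ |φ x * φ x - u x * u x| := by
        have e5 : |Z x0 r x * (u x ^ 2 - φ x ^ 2)| ≤ |φ x * φ x - u x * u x| := by
          rw [abs_mul, abs_of_pos e2]
          have e6 : |u x ^ 2 - φ x ^ 2| = |φ x * φ x - u x * u x| := by
            rw [abs_sub_comm]
            congr 1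
            ring
          rw [e6]
          exact mul_le_of_le_one_left (abs_nonneg _) e3
        exact (le_abs_self _).trans e5
      linarith
    rw [integral_add i3 i6] at this
    linarith
  have d3 := mul_le_mul_of_nonneg_left d2 hlam
  linarith

lemma mono_approx {Ω : Set E} {lam : ℝ} (hlam : 0 ≤ lam) {u : E → ℝ} {G : E → E}
    (h : Eig Ω lam u G) {S : Set E} {φ : E → ℝ} (hφ : Tst S φ) (x0 : E) {r1 r2 : ℝ}
    (hr1 : 0 < r1) (hr : r1 ≤ r2)
    {δ δ' : ℝ} (hδ : ∫ x, ‖φ x • gradient φ x - u x • G x‖ ≤ δ)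
    (hδ' : ∫ x, ‖φ x • φ x - u x • u x‖ ≤ δ') :
    Real.exp (lam * r1 ^ 2) * hS φ x0 r1 ≤ Real.exp (lam * r2 ^ 2) * hS φ x0 r2 +
      Real.exp (lam * r2 ^ 2) * (2 * r2 * (r1 ^ Module.finrank ℝ E)⁻¹ *
        (r1⁻¹ * δ + lam * δ')) * (r2 - r1) := by
  set n := Module.finrank ℝ E
  have hδ0 : 0 ≤ δ := (integral_nonneg fun _ => norm_nonneg _).trans hδ
  have hδ0' : 0 ≤ δ' := (integral_nonneg fun _ => norm_nonneg _).trans hδ'
  set C := Real.exp (lam * r2 ^ 2) * (2 * r2 * (r1 ^ n)⁻¹ * (r1⁻¹ * δ + lam * δ')) with hC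
  have hr2 : 0 < r2 := by linarith
  set m : ℝ → ℝ := fun r => Real.exp (lam * r ^ 2) * hS φ x0 r + C * (r - r1) with hm
  have hder : ∀ r ∈ Icc r1 r2, HasDerivAt m (Real.exp (lam * r ^ 2) * (2 * lam * r) * hS φ x0 r +
      Real.exp (lam * r ^ 2) * (-(2 * r * (r ^ n)⁻¹ *
      ∫ x, φ x * inner ℝ (gradient φ x) (gradient (Z x0 r) x))) + C) r := by
    intro r hr'
    have hr0 : 0 < r := by linarith [hr'.1]
    have h1 : HasDerivAt (fun r : ℝ => Real.exp (lam * r ^ 2))
        (Real.exp (lam * r ^ 2) * (2 * lam * r)) r := by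
      have := (((hasDerivAt_id r).fun_pow 2).const_mul lam).exp
      refine this.congr_deriv ?_
      simp
      ring
    have h2 := hS_deriv' hφ x0 hr0
    have h3 := h1.mul h2
    have h4 : HasDerivAt (fun r : ℝ => C * (r - r1)) C r := by
      have := ((hasDerivAt_id r).sub_const r1).const_mul C
      simpa using this
    exact h3.add h4
  have hmono : MonotoneOn m (Icc r1 r2) := by
    apply monotoneOn_of_deriv_nonneg (convex_Icc r1 r2)
    · intro r hr'
      exact (hder r hr').continuousAt.continuousWithinAt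
    · intro r hr'
      rw [interior_Icc] at hr'
      exact (hder r ⟨hr'.1.le, hr'.2.le⟩).differentiableAt.differentiableWithinAt
    · intro r hr'
      rw [interior_Icc] at hr'
      have hr0 : 0 < r := by linarith [hr'.1]
      rw [(hder r ⟨hr'.1.le, hr'.2.le⟩).deriv]
      have hst := step_deriv hlam h hφ x0 hr0 hδ hδ'
      have hSe := hS_eq φ x0 hr0
      have hrn : (0:ℝ) < (r ^ n)⁻¹ := by positivity
      have k1 : 2 * r * (r ^ n)⁻¹ * ∫ x, φ x * inner ℝ (gradient φ x) (gradient (Z x0 r) x) ≤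
          2 * r * (r ^ n)⁻¹ * (lam * (∫ x, Z x0 r x * φ x ^ 2) + (r⁻¹ * δ + lam * δ')) :=
        mul_le_mul_of_nonneg_left hst (by positivity)
      have k2 : 2 * r * (r ^ n)⁻¹ * (lam * (∫ x, Z x0 r x * φ x ^ 2) + (r⁻¹ * δ + lam * δ')) =
          2 * lam * r * hS φ x0 r + 2 * r * (r ^ n)⁻¹ * (r⁻¹ * δ + lam * δ') := by
        rw [hSe]; ring
      have k3 : 2 * r * (r ^ n)⁻¹ * (r⁻¹ * δ + lam * δ') ≤
          2 * r2 * (r1 ^ n)⁻¹ * (r1⁻¹ * δ + lam * δ') := by
        have q1 : (r ^ n)⁻¹ ≤ (r1 ^ n)⁻¹ := by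
          apply inv_anti₀ (by positivity)
          exact pow_le_pow_left₀ hr1.le hr'.1.le n
        have q2 : r⁻¹ ≤ r1⁻¹ := inv_anti₀ hr1 hr'.1.le
        have q3 := hr'.2.le
        gcongr
      have k4 : Real.exp (lam * r ^ 2) ≤ Real.exp (lam * r2 ^ 2) := by
        apply Real.exp_le_exp.mpr
        have := hr'.2.le
        gcongr
      have k5 : 0 ≤ 2 * r2 * (r1 ^ n)⁻¹ * (r1⁻¹ * δ + lam * δ') := by positivity
      have k6 : Real.exp (lam * r ^ 2) * (2 * r2 * (r1 ^ n)⁻¹ * (r1⁻¹ * δ + lam * δ')) ≤ C :=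
        mul_le_mul_of_nonneg_right k4 k5
      have k7 := Real.exp_pos (lam * r ^ 2)
      have k8 : Real.exp (lam * r ^ 2) * (2 * r * (r ^ n)⁻¹ *
          ∫ x, φ x * inner ℝ (gradient φ x) (gradient (Z x0 r) x)) ≤
          Real.exp (lam * r ^ 2) * (2 * lam * r * hS φ x0 r) + C := by
        calc _ ≤ Real.exp (lam * r ^ 2) * (2 * lam * r * hS φ x0 r +
              2 * r2 * (r1 ^ n)⁻¹ * (r1⁻¹ * δ + lam * δ')) := by
              apply mul_le_mul_of_nonneg_left _ k7.le
              linarith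
          _ ≤ _ := by rw [mul_add]; linarith
      nlinarith
  have hfin := hmono (left_mem_Icc.mpr hr) (right_mem_Icc.mpr hr) hr
  simp only [hm] at hfin
  rw [sub_self, mul_zero, add_zero] at hfin
  exact hfin

/-- monotonicity of the Gaussian means of `u²` -/
theorem Eig.gauss_mono {Ω : Set E} {lam : ℝ} (hlam : 0 ≤ lam) {u : E → ℝ} {G : E → E}
    (h : Eig Ω lam u G) (x0 : E) {r1 r2 : ℝ} (hr1 : 0 < r1) (hr : r1 ≤ r2) :
    (r1 ^ Module.finrank ℝ E)⁻¹ * ∫ x, Z x0 r1 x * u x ^ 2 ≤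
      Real.exp (lam * r2 ^ 2) * ((r2 ^ Module.finrank ℝ E)⁻¹ * ∫ x, Z x0 r2 x * u x ^ 2) := by
  obtain ⟨hu, hG, φ, hφ, t1, t2⟩ := h.appr
  have hr2 : 0 < r2 := by linarith
  have L1 := L1_conv (fun k => (hφ k).memLp) hu (fun k => (hφ k).memLp_grad) hG t1 t2
  have L2 := L1_conv (fun k => (hφ k).memLp) hu (fun k => (hφ k).memLp) hu t1 t1
  have hZt : ∀ r, Tendsto (fun k => ∫ x, Z x0 r x * φ k x ^ 2) atTop
      (𝓝 (∫ x, Z x0 r x * u x ^ 2)) := fun r =>
    tendsto_sq_weight hφ hu t1 (Z_contDiff x0 r).continuous (c := 1) (fun x => by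
      rw [abs_of_pos (Z_pos _ _ _)]
      exact Z_le_one _ _ _)
  have key := fun k => mono_approx hlam h (hφ k) x0 hr1 hr le_rfl le_rfl
  simp only [hS_eq _ x0 hr1, hS_eq _ x0 hr2] at key
  have T1 := ((hZt r1).const_mul ((r1 ^ Module.finrank ℝ E)⁻¹)).const_mul
    (Real.exp (lam * r1 ^ 2))
  have T2 := ((hZt r2).const_mul ((r2 ^ Module.finrank ℝ E)⁻¹)).const_mul
    (Real.exp (lam * r2 ^ 2))
  have T3 := ((((L1.const_mul r1⁻¹).add (L2.const_mul lam)).const_mul
    (2 * r2 * (r1 ^ Module.finrank ℝ E)⁻¹)).const_mul (Real.exp (lam * r2 ^ 2))).mul_const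
    (r2 - r1)
  have T4 := le_of_tendsto_of_tendsto' T1 (T2.add T3) key
  simp only [mul_zero, add_zero, zero_mul] at T4
  have h1 : (1:ℝ) ≤ Real.exp (lam * r1 ^ 2) := by
    rw [← Real.exp_zero]
    exact Real.exp_le_exp.mpr (by positivity)
  have h2 : 0 ≤ (r1 ^ Module.finrank ℝ E)⁻¹ * ∫ x, Z x0 r1 x * u x ^ 2 := by
    apply mul_nonneg (by positivity)
    exact integral_nonneg fun x => mul_nonneg (Z_pos _ _ _).le (sq_nonneg _)
  calc _ ≤ Real.exp (lam * r1 ^ 2) * ((r1 ^ Module.finrank ℝ E)⁻¹ *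
        ∫ x, Z x0 r1 x * u x ^ 2) := le_mul_of_one_le_left h2 h1
    _ ≤ _ := T4

end Pool.Agent.U582.SN
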