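import Pool.Agent.U582.SN.Slice2

set_option autoImplicit false
set_option linter.unusedSectionVars false

open MeasureTheory Set Filter Topology Metric
open scoped ENNReal NNReal ContDiff

namespace Pool.Agent.U582.SN

section prod

variable {F : Type*} [NormedAddCommGroup F] [InnerProductSpace ℝ F] [FiniteDimensional ℝ F]
  [MeasurableSpace F] [BorelSpace F]

/-- slice energy -/
noncomputable def enF (V : ℝ × F → ℝ) (z : ℝ × F) : ℝ :=
  ‖(fderiv ℝ V z).comp (ContinuousLinearMap.inr ℝ ℝ F)‖ ^ 2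

lemma enF_cont {V : ℝ × F → ℝ} (hV : ContDiff ℝ ∞ V) : Continuous (enF V) := by
  unfold enF
  have h : Continuous (fderiv ℝ V) := hV.continuous_fderiv (by simp)
  have h2 : Continuous fun z => (fderiv ℝ V z).comp (ContinuousLinearMap.inr ℝ ℝ F) :=
    h.clm_comp continuous_const
  exact h2.norm.pow 2

lemma enF_cs {V : ℝ × F → ℝ} (hc : HasCompactSupport V) : HasCompactSupport (enF V) := by
  apply (hc.fderiv (𝕜 := ℝ)).comp_left (g := fun A : ℝ × F →L[ℝ] ℝ =>
    ‖A.comp (ContinuousLinearMap.inr ℝ ℝ F)‖ ^ 2)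
  simp

lemma slice_fderiv {V : ℝ × F → ℝ} (hV : ContDiff ℝ ∞ V) (t : ℝ) (y : F) :
    fderiv ℝ (fun y => V (t, y)) y =
      (fderiv ℝ V (t, y)).comp (ContinuousLinearMap.inr ℝ ℝ F) := by
  have h1 : HasFDerivAt V (fderiv ℝ V (t, y)) (t, y) :=
    (hV.differentiable (by simp)).differentiableAt.hasFDerivAt
  exact (h1.comp y (hasFDerivAt_prodMk_right t y)).fderiv

/-- The integrated slice inequality. -/
theorem slab_ineq {Ω : Set (ℝ × F)} (hΩ : Convex ℝ Ω) {lam d : ℝ} (hd : 0 < d)
    (hp : ((d, 0) : ℝ × F) ∈ Ω)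
    (H : ∀ V : ℝ × F → ℝ, ContDiff ℝ ∞ V → HasCompactSupport V → tsupport V ⊆ Ω →
      lam * ∫ z, V z ^ 2 ≤ ∫ z, en V z)
    {W : ℝ × F → ℝ} (hW : ContDiff ℝ ∞ W) (hWc : HasCompactSupport W) (hWΩ : tsupport W ⊆ Ω)
    {l R : ℝ} (hl : 0 < l) (h2 : l ≤ d / 4) (hRd : R ≤ d / 4)
    (hR : ∀ z ∈ tsupport W, z.1 ≤ R ∧ ‖z.2‖ ≤ R) :
    lam * ∫ z, W z ^ 2 ≤ CS (Module.finrank ℝ F) / l ^ 2 * (∫ z, W z ^ 2) +
      (1 + 5 * l / d + 8 * R ^ 2 / d ^ 2) * ∫ z, enF W z := by
  have hW2 : Integrable (fun z => W z ^ 2) (volume.prod volume) := by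
    apply Continuous.integrable_of_hasCompactSupport (f := fun z => W z ^ 2)
    · exact hW.continuous.pow 2
    · exact hWc.comp_left (g := fun x : ℝ => x ^ 2) (by norm_num)
  have hE2 : Integrable (enF W) (volume.prod volume) :=
    (enF_cont hW).integrable_of_hasCompactSupport (enF_cs hWc)
  have e1 : ∫ z, W z ^ 2 = ∫ t, ∫ y, W (t, y) ^ 2 := by
    change ∫ z, W z ^ 2 ∂(volume.prod volume) = _
    exact integral_prod _ hW2
  have e2 : ∫ z, enF W z = ∫ t, ∫ y, enF W (t, y) := by
    change ∫ z, enF W z ∂(volume.prod volume) = _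
    exact integral_prod _ hE2
  have key : ∀ t : ℝ, lam * ∫ y, W (t, y) ^ 2 ≤ CS (Module.finrank ℝ F) / l ^ 2 *
      (∫ y, W (t, y) ^ 2) + (1 + 5 * l / d + 8 * R ^ 2 / d ^ 2) * ∫ y, enF W (t, y) := by
    intro t
    have hsub : ∀ y ∈ tsupport (fun y => W (t, y)), (t, y) ∈ tsupport W := by
      have hcl : IsClosed {y : F | (t, y) ∈ tsupport W} :=
        (isClosed_tsupport W).preimage (by fun_prop)
      exact closure_minimal (fun y hy => subset_tsupport W hy) hcl
    by_cases ht : t ≤ d / 4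
    · have hs := slice_ineq hΩ hd hp H (φ := fun y => W (t, y))
        (hW.comp (contDiff_prodMk_right t)) (slice_cs hWc t) (ts := t) (l := l) (R := R) hl ht h2
        (fun y hy => hWΩ (hsub y hy)) (fun y hy => (hR _ (hsub y hy)).2)
      simp only [slice_fderiv hW] at hs
      exact hs
    · have h0 : ∀ y, (t, y) ∉ tsupport W := by
        intro y hy
        have := (hR _ hy).1
        simp only at this
        linarith
      have h3 : ∀ y, W (t, y) = 0 := fun y => image_eq_zero_of_notMem_tsupport (h0 y)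
      have h4 : ∀ y, enF W (t, y) = 0 := by
        intro y
        unfold enF
        have := (notMem_tsupport_iff_eventuallyEq.mp (h0 y)).fderiv_eq (𝕜 := ℝ)
        rw [this]
        simp
      simp [h3, h4]
  rw [e1, e2, ← integral_const_mul, ← integral_const_mul, ← integral_const_mul,
    ← integral_add (hW2.integral_prod_left.const_mul _) (hE2.integral_prod_left.const_mul _)]
  exact integral_mono (hW2.integral_prod_left.const_mul _)
    ((hW2.integral_prod_left.const_mul _).add (hE2.integral_prod_left.const_mul _)) key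

end prod

section transfer

variable {E : Type*} [NormedAddCommGroup E] [InnerProductSpace ℝ E] [FiniteDimensional ℝ E]
  [MeasurableSpace E] [BorelSpace E]

open Submodule

/-- coordinates adapted to a unit vector -/
noncomputable def Jm (e x0 : E) (z : ℝ × (span ℝ {e})ᗮ) : E := x0 + (z.1 • e + (z.2 : E))

noncomputable def Jd (e : E) : ℝ × (span ℝ {e})ᗮ →L[ℝ] E :=
  (ContinuousLinearMap.fst ℝ ℝ _).smulRight e +
    ((span ℝ {e})ᗮ.subtypeL).comp (ContinuousLinearMap.snd ℝ ℝ _)

lemma Jm_hasFDerivAt (e x0 : E) (z : ℝ × (span ℝ {e})ᗮ) : HasFDerivAt (Jm e x0) (Jd e) z := by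
  have : Jm e x0 = fun z => x0 + Jd e z := by
    ext z
    simp [Jm, Jd]
  rw [this]
  exact (Jd e).hasFDerivAt.const_add x0

noncomputable def Ji (e x0 : E) (x : E) : ℝ × (span ℝ {e})ᗮ :=
  (inner ℝ e (x - x0), (span ℝ {e})ᗮ.orthogonalProjectionOnto (x - x0))

lemma decomp {e : E} (he : ‖e‖ = 1) (v : E) :
    (inner ℝ e v) • e + ((span ℝ {e})ᗮ.orthogonalProjectionOnto v : E) = v := by
  have h1 := (span ℝ {e}).starProjection_add_starProjection_orthogonal v
  have h2 : (span ℝ {e}).starProjection v = (inner ℝ e v) • e :=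
    Submodule.starProjection_unit_singleton ℝ he v
  rw [h2] at h1
  exact h1

lemma Jm_Ji {e : E} (he : ‖e‖ = 1) (x0 x : E) : Jm e x0 (Ji e x0 x) = x := by
  unfold Jm Ji
  simp only
  rw [decomp he]
  abel

lemma inner_perp {e : E} (y : (span ℝ {e})ᗮ) : inner ℝ e (y : E) = 0 := by
  have := y.2
  rw [Submodule.mem_orthogonal] at this
  exact this e (Submodule.mem_span_singleton_self e)

lemma Ji_Jm {e : E} (he : ‖e‖ = 1) (x0 : E) (z : ℝ × (span ℝ {e})ᗮ) :
    Ji e x0 (Jm e x0 z) = z := by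
  unfold Jm Ji
  obtain ⟨t, y⟩ := z
  simp only [add_sub_cancel_left]
  refine Prod.ext ?_ ?_
  · simp only [inner_add_right, inner_smul_right, inner_perp, real_inner_self_eq_norm_sq, he]
    ring
  · simp only
    rw [map_add, map_smul]
    have h1 : (span ℝ {e})ᗮ.orthogonalProjectionOnto e = 0 := by
      apply Submodule.orthogonalProjectionOnto_apply_of_mem_orthogonal
      rw [Submodule.orthogonal_orthogonal]
      exact Submodule.mem_span_singleton_self e
    rw [h1, smul_zero, zero_add]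
    exact Submodule.orthogonalProjectionOnto_mem_subspace_eq_self y

end transfer

end Pool.Agent.U582.SN
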