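import Mathlib

set_option autoImplicit false
set_option linter.unusedSectionVars false

open MeasureTheory Set Filter Topology Metric
open scoped ENNReal NNReal ContDiff

namespace Pool.Agent.U582.SN

/-- smooth bump on the line -/
noncomputable def chi : ContDiffBump (1/2:ℝ) := ⟨1/8, 1/4, by norm_num, by norm_num⟩

noncomputable def X0 : ℝ := ∫ t, (chi t)^2
noncomputable def X1 : ℝ := ∫ t, (deriv chi t)^2

lemma chi_contDiff : ContDiff ℝ ∞ (chi : ℝ → ℝ) := chi.contDiff

lemma X0_pos : 0 < X0 := by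
  unfold X0
  apply Continuous.integral_pos_of_hasCompactSupport_nonneg_nonzero (x := (1/2:ℝ))
  · exact (chi_contDiff.continuous).pow 2
  · have h := chi.hasCompactSupport
    exact h.comp_left (g := fun x : ℝ => x^2) (by norm_num)
  · intro x
    positivity
  · have : chi (1/2:ℝ) = 1 := chi.one_of_mem_closedBall (mem_closedBall_self (by show (0:ℝ) ≤ 1/8; norm_num))
    rw [this]
    norm_num

lemma X1_nonneg : 0 ≤ X1 := integral_nonneg fun _ => sq_nonneg _

variable {F : Type*} [NormedAddCommGroup F] [InnerProductSpace ℝ F] [FiniteDimensional ℝ F]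
  [MeasurableSpace F] [BorelSpace F]

/-- the amplitude function -/
noncomputable def amp (ts l : ℝ) (t : ℝ) : ℝ := chi ((t - ts) / l)

lemma amp_contDiff (ts l : ℝ) : ContDiff ℝ ∞ (amp ts l) := by
  unfold amp
  exact chi_contDiff.comp ((contDiff_id.sub contDiff_const).div_const _)

lemma amp_zero {ts l t : ℝ} (hl : 0 < l) (h : t ∉ Icc ts (ts + l)) : amp ts l =ᶠ[𝓝 t] 0 := by
  have ho : IsOpen (Icc ts (ts + l))ᶜ := isClosed_Icc.isOpen_compl
  filter_upwards [ho.mem_nhds h] with s hs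
  unfold amp
  have : chi ((s - ts) / l) = 0 := by
    apply chi.zero_of_le_dist
    show (1/4:ℝ) ≤ _
    rw [Real.dist_eq]
    rw [mem_compl_iff, mem_Icc, not_and_or, not_le, not_le] at hs
    rcases hs with hs | hs
    · have : (s - ts) / l < 0 := div_neg_of_neg_of_pos (by linarith) hl
      rw [abs_of_neg (by linarith)]
      linarith
    · have : 1 < (s - ts) / l := by rw [lt_div_iff₀ hl]; linarith
      rw [abs_of_pos (by linarith)]
      linarith
  simpa using this

lemma amp_tsupport {ts l : ℝ} (hl : 0 < l) : tsupport (amp ts l) ⊆ Icc ts (ts + l) := by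
  intro t ht
  by_contra h
  have := amp_zero hl h
  rw [← notMem_tsupport_iff_eventuallyEq] at this
  exact this ht

lemma amp_cs {ts l : ℝ} (hl : 0 < l) : HasCompactSupport (amp ts l) :=
  isCompact_Icc.of_isClosed_subset (isClosed_tsupport _) (amp_tsupport hl)

lemma amp_sq {ts l : ℝ} (hl : 0 < l) : ∫ t, (amp ts l t)^2 = l * X0 := by
  unfold amp X0
  have h1 : ∫ t, (fun s => (chi (s / l))^2) (t - ts) = ∫ t, (chi (t / l))^2 :=
    integral_sub_right_eq_self (fun s => (chi (s / l))^2) ts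
  have h2 := MeasureTheory.Measure.integral_comp_div (fun s => (chi s)^2) l
  simp only at h1
  rw [h1, h2, abs_of_pos hl, smul_eq_mul]

lemma amp_deriv {ts l : ℝ} (t : ℝ) : deriv (amp ts l) t = l⁻¹ * deriv chi ((t - ts) / l) := by
  have h1 : HasDerivAt chi (deriv chi ((t - ts) / l)) ((t - ts) / l) :=
    ((chi_contDiff.differentiable (by simp)).differentiableAt).hasDerivAt
  have h2 : HasDerivAt (fun t : ℝ => (t - ts) / l) (1 / l) t :=
    ((hasDerivAt_id t).sub_const ts).div_const l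
  have h3 := h1.comp t h2
  have : deriv (amp ts l) t = deriv chi ((t - ts) / l) * (1 / l) := h3.deriv
  rw [this]
  ring

lemma amp_deriv_sq {ts l : ℝ} (hl : 0 < l) : ∫ t, (deriv (amp ts l) t)^2 = X1 / l := by
  unfold X1
  simp only [amp_deriv, mul_pow]
  rw [integral_const_mul]
  have h1 : ∫ t, (fun s => (deriv chi (s / l))^2) (t - ts) = ∫ t, (deriv chi (t / l))^2 :=
    integral_sub_right_eq_self (fun s => (deriv chi (s / l))^2) ts
  have h2 := MeasureTheory.Measure.integral_comp_div (fun s => (deriv chi s)^2) l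
  simp only at h1
  rw [h1, h2, abs_of_pos hl, smul_eq_mul]
  field_simp

/-- the trial function -/
noncomputable def trial (φ : F → ℝ) (d ts l : ℝ) (z : ℝ × F) : ℝ :=
  amp ts l z.1 * φ (((d - ts) / (d - z.1)) • z.2)

lemma trial_hasFDerivAt {φ : F → ℝ} (hφ : ContDiff ℝ ∞ φ) {d ts l t : ℝ} (ht : t < d) (y : F) :
    HasFDerivAt (trial φ d ts l)
      ((amp ts l t) • ((fderiv ℝ φ (((d - ts) / (d - t)) • y)).comp
        (((d - ts) / (d - t)) • ContinuousLinearMap.snd ℝ ℝ F +
          (((d - ts) / (d - t)^2) • ContinuousLinearMap.fst ℝ ℝ F).smulRight y)) +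
        (φ (((d - ts) / (d - t)) • y)) • ((deriv (amp ts l) t) • ContinuousLinearMap.fst ℝ ℝ F))
      (t, y) := by
  have hdt : d - t ≠ 0 := by linarith
  have h1 : HasFDerivAt (fun z : ℝ × F => amp ts l z.1)
      ((deriv (amp ts l) t) • ContinuousLinearMap.fst ℝ ℝ F) (t, y) := by
    have h := ((amp_contDiff ts l).differentiable (by simp)).differentiableAt.hasDerivAt (x := t)
    exact HasDerivAt.comp_hasFDerivAt (h₂ := amp ts l) (f := fun z : ℝ × F => z.1) (t, y) h
      (hasFDerivAt_fst (𝕜 := ℝ) (E := ℝ) (F := F))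
  have h2 : HasDerivAt (fun s : ℝ => (d - ts) / (d - s)) ((d - ts) / (d - t)^2) t := by
    have h := ((hasDerivAt_id t).const_sub d)
    have h' := (hasDerivAt_const t (d - ts)).div h hdt
    have e : (0 * (d - id t) - (d - ts) * -1) / (d - id t) ^ 2 = (d - ts) / (d - t)^2 := by
      simp
    rw [e] at h'
    exact h'
  have h3 : HasFDerivAt (fun z : ℝ × F => (d - ts) / (d - z.1))
      (((d - ts) / (d - t)^2) • ContinuousLinearMap.fst ℝ ℝ F) (t, y) :=
    HasDerivAt.comp_hasFDerivAt (h₂ := fun s : ℝ => (d - ts) / (d - s)) (f := fun z : ℝ × F => z.1)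
      (t, y) h2 (hasFDerivAt_fst (𝕜 := ℝ) (E := ℝ) (F := F))
  have h4 := h3.smul (hasFDerivAt_snd (𝕜 := ℝ) (E := ℝ) (F := F) (p := (t, y)))
  have h5 : HasFDerivAt φ (fderiv ℝ φ (((d - ts) / (d - t)) • y)) (((d - ts) / (d - t)) • y) :=
    ((hφ.differentiable (by simp)).differentiableAt).hasFDerivAt
  have h6 := HasFDerivAt.comp (t, y) (g := φ) (f := fun z : ℝ × F => ((d - ts) / (d - z.1)) • z.2) h5 h4
  have h7 := h1.mul h6
  exact h7

lemma trial_eventually_zero {φ : F → ℝ} {d ts l : ℝ} (hl : 0 < l) {z : ℝ × F}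
    (h : z.1 ∉ Icc ts (ts + l)) : trial φ d ts l =ᶠ[𝓝 z] 0 := by
  have h1 := amp_zero hl h
  have h2 : Tendsto (fun w : ℝ × F => w.1) (𝓝 z) (𝓝 z.1) := continuous_fst.continuousAt
  filter_upwards [h2.eventually h1] with w hw
  unfold trial
  rw [hw]
  simp

lemma trial_contDiff {φ : F → ℝ} (hφ : ContDiff ℝ ∞ φ) {d ts l : ℝ} (hl : 0 < l)
    (hd : ts + l < d) : ContDiff ℝ ∞ (trial φ d ts l) := by
  rw [contDiff_iff_contDiffAt]
  intro z
  by_cases hz : z.1 < d
  · unfold trial
    have hne : d - z.1 ≠ 0 := by linarith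
    have h1 : ContDiffAt ℝ ∞ (fun z : ℝ × F => amp ts l z.1) z :=
      ((amp_contDiff ts l).comp contDiff_fst).contDiffAt
    have h2 : ContDiffAt ℝ ∞ (fun z : ℝ × F => (d - ts) / (d - z.1)) z :=
      contDiffAt_const.div (contDiffAt_const.sub contDiff_fst.contDiffAt) hne
    exact h1.mul (hφ.contDiffAt.comp z (h2.smul contDiff_snd.contDiffAt))
  · have h : z.1 ∉ Icc ts (ts + l) := by
      rintro ⟨_, h⟩
      linarith
    exact contDiffAt_const.congr_of_eventuallyEq (trial_eventually_zero hl h)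

lemma trial_tsupport {φ : F → ℝ} (hφc : HasCompactSupport φ) {d ts l : ℝ} (hl : 0 < l)
    (hd : ts + l < d) :
    tsupport (trial φ d ts l) ⊆
      (fun z : ℝ × F => (z.1, ((d - z.1) / (d - ts)) • z.2)) '' (Icc ts (ts + l) ×ˢ tsupport φ) := by
  have hK : IsCompact ((fun z : ℝ × F => (z.1, ((d - z.1) / (d - ts)) • z.2)) ''
      (Icc ts (ts + l) ×ˢ tsupport φ)) := by
    apply (isCompact_Icc.prod hφc.isCompact).image
    fun_prop
  apply closure_minimal _ hK.isClosed
  rintro ⟨t, y⟩ hz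
  rw [Function.mem_support] at hz
  have ht : t ∈ Icc ts (ts + l) := by
    by_contra h
    exact hz ((trial_eventually_zero hl (z := (t, y)) h).self_of_nhds)
  unfold trial at hz
  have h2 : φ (((d - ts) / (d - t)) • y) ≠ 0 := right_ne_zero_of_mul hz
  refine ⟨(t, ((d - ts) / (d - t)) • y), ⟨ht, subset_tsupport _ h2⟩, ?_⟩
  have h3 : d - t ≠ 0 := by linarith [ht.2]
  have h4 : d - ts ≠ 0 := by linarith
  simp only [smul_smul, Prod.mk.injEq, true_and]
  rw [show (d - t) / (d - ts) * ((d - ts) / (d - t)) = 1 by field_simp, one_smul]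

lemma trial_cs {φ : F → ℝ} (hφc : HasCompactSupport φ) {d ts l : ℝ} (hl : 0 < l)
    (hd : ts + l < d) : HasCompactSupport (trial φ d ts l) := by
  have hK : IsCompact ((fun z : ℝ × F => (z.1, ((d - z.1) / (d - ts)) • z.2)) ''
      (Icc ts (ts + l) ×ˢ tsupport φ)) := by
    apply (isCompact_Icc.prod hφc.isCompact).image
    fun_prop
  exact hK.of_isClosed_subset (isClosed_tsupport _) (trial_tsupport hφc hl hd)

lemma trial_subset {Ω : Set (ℝ × F)} (hΩ : Convex ℝ Ω) {φ : F → ℝ} (hφc : HasCompactSupport φ)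
    {d ts l : ℝ} (hl : 0 < l) (hd : ts + l < d) (hp : ((d, 0) : ℝ × F) ∈ Ω)
    (hφΩ : ∀ y ∈ tsupport φ, (ts, y) ∈ Ω) : tsupport (trial φ d ts l) ⊆ Ω := by
  refine (trial_tsupport hφc hl hd).trans ?_
  rintro _ ⟨⟨t, y⟩, ⟨ht, hy⟩, rfl⟩
  have h4 : 0 < d - ts := by linarith
  have h5 : 0 ≤ (d - t) / (d - ts) := div_nonneg (by linarith [ht.2]) h4.le
  have h6 : 0 ≤ (t - ts) / (d - ts) := div_nonneg (by linarith [ht.1]) h4.le
  have h7 := hΩ (hφΩ y hy) hp h5 h6 (by field_simp; ring)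
  convert h7 using 1
  simp only [Prod.smul_mk, Prod.mk_add_mk, smul_eq_mul, smul_zero, add_zero, Prod.mk.injEq,
    and_true]
  field_simp
  ring

/-- the Dirichlet integrand of a function on the product -/
noncomputable def en (V : ℝ × F → ℝ) (z : ℝ × F) : ℝ :=
  (fderiv ℝ V z (1, 0)) ^ 2 + ‖(fderiv ℝ V z).comp (ContinuousLinearMap.inr ℝ ℝ F)‖ ^ 2

lemma trial_en {φ : F → ℝ} (hφ : ContDiff ℝ ∞ φ) {d ts l R : ℝ} (hd : 0 < d) (hl : 0 < l)
    (h1 : ts ≤ d / 4) (h2 : l ≤ d / 4) (hR : ∀ y ∈ tsupport φ, ‖y‖ ≤ R) (t : ℝ) (y : F) :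
    en (trial φ d ts l) (t, y) ≤
      2 * (deriv (amp ts l) t)^2 * (φ (((d - ts) / (d - t)) • y))^2 +
      (1 + 5 * l / d + 8 * R^2 / d^2) * (amp ts l t)^2 *
        ‖fderiv ℝ φ (((d - ts) / (d - t)) • y)‖^2 := by
  by_cases ht : t ∈ Icc ts (ts + l)
  · have htd : t < d := by linarith [ht.2]
    have hD := (trial_hasFDerivAt hφ (ts := ts) (l := l) htd y).fderiv
    set σ := (d - ts) / (d - t) with hσ
    set A := fderiv ℝ φ (σ • y) with hA
    have hdt : 0 < d - t := by linarith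
    have hσ1 : 1 ≤ σ := by rw [hσ, le_div_iff₀ hdt]; linarith [ht.1]
    have hσ2 : σ ≤ 1 + 2 * l / d := by
      rw [hσ, div_le_iff₀ hdt]
      have e : (1 + 2 * l / d) * (d - t) = (d - t) + l * (2 * (d - t) / d) := by
        field_simp
      have e2 : 1 ≤ 2 * (d - t) / d := by
        rw [le_div_iff₀ hd]; linarith [ht.2]
      rw [e]
      nlinarith [ht.2]
    have hσ3 : σ^2 ≤ 1 + 5 * l / d := by
      have hld : l / d ≤ 1 / 4 := by rw [div_le_iff₀ hd]; linarith
      have hld0 : 0 ≤ l / d := by positivity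
      have e1 : 2 * l / d = 2 * (l / d) := by ring
      have e2 : 5 * l / d = 5 * (l / d) := by ring
      rw [e1] at hσ2
      rw [e2]
      nlinarith
    have f1 : fderiv ℝ (trial φ d ts l) (t, y) (1, 0) =
        deriv (amp ts l) t * φ (σ • y) + amp ts l t * ((1 / (d - t)) * A (σ • y)) := by
      rw [hD]
      simp only [_root_.add_apply, _root_.smul_apply,
        ContinuousLinearMap.comp_apply, ContinuousLinearMap.coe_snd', smul_zero, zero_add,
        ContinuousLinearMap.smulRight_apply, ContinuousLinearMap.coe_fst', smul_eq_mul, mul_one,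
        map_smul]
      have : (d - ts) / (d - t)^2 = (1 / (d - t)) * σ := by
        rw [hσ]; field_simp
      rw [this]
      ring
    have f2 : (fderiv ℝ (trial φ d ts l) (t, y)).comp (ContinuousLinearMap.inr ℝ ℝ F) =
        (amp ts l t * σ) • A := by
      rw [hD]
      ext v
      simp only [_root_.add_apply, _root_.smul_apply,
        ContinuousLinearMap.comp_apply, ContinuousLinearMap.coe_snd',
        ContinuousLinearMap.smulRight_apply, ContinuousLinearMap.coe_fst', smul_eq_mul,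
        ContinuousLinearMap.inr_apply, mul_zero, zero_smul, add_zero, map_smul]
      ring
    have f3 : |A (σ • y)| ≤ ‖A‖ * R := by
      by_cases hy : σ • y ∈ tsupport φ
      · refine (A.le_opNorm _).trans ?_
        exact mul_le_mul_of_nonneg_left (hR _ hy) (norm_nonneg _)
      · have : A = 0 := by
          rw [hA]
          have := (notMem_tsupport_iff_eventuallyEq.mp hy).fderiv_eq (𝕜 := ℝ)
          rw [this]
          simp
        rw [this]
        simp
    have f4 : (A (σ • y))^2 ≤ ‖A‖^2 * R^2 := by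
      rw [← sq_abs, ← mul_pow]
      exact pow_le_pow_left₀ (abs_nonneg _) f3 2
    have f5 : (1 / (d - t))^2 ≤ 4 / d^2 := by
      rw [div_pow, one_pow, div_le_div_iff₀ (by positivity) (by positivity)]
      nlinarith [ht.2]
    unfold en
    rw [f1, f2, norm_smul, mul_pow, Real.norm_eq_abs, sq_abs, mul_pow]
    set a := amp ts l t
    set a' := deriv (amp ts l) t
    have g1 : (a' * φ (σ • y) + a * ((1 / (d - t)) * A (σ • y)))^2 ≤
        2 * a'^2 * φ (σ • y)^2 + 2 * (a^2 * ((1 / (d - t))^2 * (A (σ • y))^2)) := by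
      nlinarith [sq_nonneg (a' * φ (σ • y) - a * ((1 / (d - t)) * A (σ • y)))]
    have g2 : (1 / (d - t))^2 * (A (σ • y))^2 ≤ 4 / d^2 * (‖A‖^2 * R^2) :=
      mul_le_mul f5 f4 (sq_nonneg _) (by positivity)
    have g3 : a^2 * ((1 / (d - t))^2 * (A (σ • y))^2) ≤ a^2 * (4 / d^2 * (‖A‖^2 * R^2)) :=
      mul_le_mul_of_nonneg_left g2 (sq_nonneg _)
    have g4 : a^2 * σ^2 * ‖A‖^2 ≤ a^2 * (1 + 5 * l / d) * ‖A‖^2 := by
      gcongr
    have g5 : a^2 * (4 / d^2 * (‖A‖^2 * R^2)) = (4 * R^2 / d^2) * a^2 * ‖A‖^2 := by ring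
    have g6 : (1 + 5 * l / d + 8 * R^2 / d^2) * a^2 * ‖A‖^2 =
      a^2 * (1 + 5 * l / d) * ‖A‖^2 + 2 * ((4 * R^2 / d^2) * a^2 * ‖A‖^2) := by ring
    rw [g6, ← g5]
    linarith
  · have h0 := (trial_eventually_zero (φ := φ) (d := d) hl (z := (t, y)) ht).fderiv_eq (𝕜 := ℝ)
    have h3 : en (trial φ d ts l) (t, y) = 0 := by
      unfold en
      rw [h0]
      simp
    rw [h3]
    positivity

lemma en_cont {V : ℝ × F → ℝ} (hV : ContDiff ℝ ∞ V) : Continuous (en V) := by
  unfold en
  have h : Continuous (fderiv ℝ V) := hV.continuous_fderiv (by simp)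
  have h1 : Continuous fun z => fderiv ℝ V z (1, 0) := h.clm_apply continuous_const
  have h2 : Continuous fun z => (fderiv ℝ V z).comp (ContinuousLinearMap.inr ℝ ℝ F) :=
    h.clm_comp continuous_const
  exact (h1.pow 2).add (h2.norm.pow 2)

lemma en_cs {V : ℝ × F → ℝ} (hc : HasCompactSupport V) : HasCompactSupport (en V) := by
  apply (hc.fderiv (𝕜 := ℝ)).comp_left (g := fun A : ℝ × F →L[ℝ] ℝ =>
    (A (1, 0)) ^ 2 + ‖A.comp (ContinuousLinearMap.inr ℝ ℝ F)‖ ^ 2)
  simp

lemma slice_cs {V : ℝ × F → ℝ} (hc : HasCompactSupport V) (t : ℝ) :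
    HasCompactSupport fun y => V (t, y) := by
  apply hc.comp_isClosedEmbedding (g := fun y : F => (t, y))
  refine ⟨isEmbedding_prodMkRight t, ?_⟩
  have : range (fun y : F => (t, y)) = {t} ×ˢ univ := by
    ext ⟨a, b⟩
    simp [eq_comm]
  rw [this]
  exact isClosed_singleton.prod isClosed_univ

/-- the dimensional constant -/
noncomputable def CS (m : ℕ) : ℝ := 2 * (3 / 2) ^ m * (X1 / X0)

lemma CS_nonneg (m : ℕ) : 0 ≤ CS m := by
  unfold CS
  have := X0_pos
  have := X1_nonneg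
  positivity


end Pool.Agent.U582.SN
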