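import Pool.Agent.U582.SN.Slice

set_option autoImplicit false
set_option linter.unusedSectionVars false

open MeasureTheory Set Filter Topology Metric
open scoped ENNReal NNReal ContDiff

namespace Pool.Agent.U582.SN

variable {F : Type*} [NormedAddCommGroup F] [InnerProductSpace ℝ F] [FiniteDimensional ℝ F]
  [MeasurableSpace F] [BorelSpace F]

/-- weight -/
noncomputable def wgt (m : ℕ) (d ts t : ℝ) : ℝ := |(d - t) / (d - ts)| ^ m

lemma wgt_nonneg (m : ℕ) (d ts t : ℝ) : 0 ≤ wgt m d ts t := pow_nonneg (abs_nonneg _) _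

lemma wgt_cont (m : ℕ) (d ts : ℝ) : Continuous (wgt m d ts) := by
  unfold wgt
  fun_prop

lemma scale_int {d ts t : ℝ} (hdt : 0 < d - t) (f : F → ℝ) :
    ∫ y, f (((d - ts) / (d - t)) • y) = wgt (Module.finrank ℝ F) d ts t * ∫ y, f y := by
  rw [Measure.integral_comp_smul, smul_eq_mul]
  congr 1
  unfold wgt
  rw [abs_inv, abs_pow, ← inv_pow]
  congr 1
  rw [← abs_inv, inv_div]

lemma wgt_bounds (m : ℕ) {d ts l t : ℝ} (hd : 0 < d) (hl : 0 < l) (h1 : ts ≤ d / 4)
    (h2 : l ≤ d / 4) (ht : t ∈ Icc ts (ts + l)) :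
    (2 / 3) ^ m ≤ wgt m d ts t ∧ wgt m d ts t ≤ 1 := by
  have hdts : 0 < d - ts := by linarith
  have e1 : 2 / 3 ≤ (d - t) / (d - ts) := by
    rw [le_div_iff₀ hdts]; linarith [ht.2]
  have e2 : (d - t) / (d - ts) ≤ 1 := by
    rw [div_le_one hdts]; linarith [ht.1]
  have e3 : 0 ≤ (d - t) / (d - ts) := by linarith
  unfold wgt
  rw [abs_of_nonneg e3]
  exact ⟨pow_le_pow_left₀ (by norm_num) e1 m, pow_le_one₀ e3 e2⟩

lemma amp_out {ts l t : ℝ} (hl : 0 < l) (ht : t ∉ Icc ts (ts + l)) :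
    amp ts l t = 0 ∧ deriv (amp ts l) t = 0 := by
  have h := amp_zero hl ht
  refine ⟨h.self_of_nhds, ?_⟩
  rw [h.deriv_eq]
  simp

lemma amp_cont (ts l : ℝ) : Continuous (amp ts l) := (amp_contDiff ts l).continuous
lemma amp_dcont (ts l : ℝ) : Continuous (deriv (amp ts l)) :=
  (amp_contDiff ts l).continuous_deriv (by simp)

lemma amp_int (m : ℕ) (d : ℝ) {ts l : ℝ} (hl : 0 < l) :
    Integrable fun t => (amp ts l t) ^ 2 * wgt m d ts t := by
  apply Continuous.integrable_of_hasCompactSupport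
  · exact ((amp_cont ts l).pow 2).mul (wgt_cont m d ts)
  · apply HasCompactSupport.mul_right
    exact (amp_cs hl).comp_left (g := fun x : ℝ => x ^ 2) (by norm_num)

lemma amp_dint (m : ℕ) (d : ℝ) {ts l : ℝ} (hl : 0 < l) :
    Integrable fun t => (deriv (amp ts l) t) ^ 2 * wgt m d ts t := by
  apply Continuous.integrable_of_hasCompactSupport
  · exact ((amp_dcont ts l).pow 2).mul (wgt_cont m d ts)
  · apply HasCompactSupport.mul_right
    exact ((amp_cs hl).deriv).comp_left (g := fun x : ℝ => x ^ 2) (by norm_num)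

/-- weighted integrals -/
noncomputable def WA (m : ℕ) (d ts l : ℝ) : ℝ := ∫ t, (amp ts l t) ^ 2 * wgt m d ts t
noncomputable def WB (m : ℕ) (d ts l : ℝ) : ℝ := ∫ t, (deriv (amp ts l) t) ^ 2 * wgt m d ts t

lemma WA_lower (m : ℕ) {d ts l : ℝ} (hd : 0 < d) (hl : 0 < l) (h1 : ts ≤ d / 4)
    (h2 : l ≤ d / 4) : (2 / 3) ^ m * (l * X0) ≤ WA m d ts l := by
  unfold WA
  rw [← amp_sq (ts := ts) hl, ← integral_const_mul]
  apply integral_mono_of_nonneg
  · exact Eventually.of_forall fun t => by positivity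
  · exact amp_int m d hl
  · refine Eventually.of_forall fun t => ?_
    by_cases ht : t ∈ Icc ts (ts + l)
    · have := (wgt_bounds m hd hl h1 h2 ht).1
      simp only
      rw [mul_comm]
      exact mul_le_mul_of_nonneg_left this (sq_nonneg _)
    · simp [(amp_out hl ht).1]

lemma WB_upper (m : ℕ) {d ts l : ℝ} (hd : 0 < d) (hl : 0 < l) (h1 : ts ≤ d / 4)
    (h2 : l ≤ d / 4) : WB m d ts l ≤ X1 / l := by
  unfold WB
  rw [← amp_deriv_sq (ts := ts) hl]
  apply integral_mono_of_nonneg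
  · refine Eventually.of_forall fun t => ?_
    exact mul_nonneg (sq_nonneg _) (wgt_nonneg _ _ _ _)
  · apply Continuous.integrable_of_hasCompactSupport
    · exact (amp_dcont ts l).pow 2
    · exact ((amp_cs hl).deriv).comp_left (g := fun x : ℝ => x ^ 2) (by norm_num)
  · refine Eventually.of_forall fun t => ?_
    by_cases ht : t ∈ Icc ts (ts + l)
    · have := (wgt_bounds m hd hl h1 h2 ht).2
      exact mul_le_of_le_one_right (sq_nonneg _) this
    · simp [(amp_out hl ht).2]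

lemma WA_pos (m : ℕ) {d ts l : ℝ} (hd : 0 < d) (hl : 0 < l) (h1 : ts ≤ d / 4)
    (h2 : l ≤ d / 4) : 0 < WA m d ts l := by
  have h := WA_lower m hd hl h1 h2
  have := X0_pos
  have h3 : (0:ℝ) < (2 / 3) ^ m * (l * X0) := by positivity
  linarith

lemma WBA (m : ℕ) {d ts l : ℝ} (hd : 0 < d) (hl : 0 < l) (h1 : ts ≤ d / 4)
    (h2 : l ≤ d / 4) : 2 * WB m d ts l ≤ CS m / l ^ 2 * WA m d ts l := by
  have hX0 := X0_pos
  have hX1 := X1_nonneg
  have hA := WA_lower m hd hl h1 h2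
  have hB := WB_upper m hd hl h1 h2
  calc 2 * WB m d ts l ≤ 2 * (X1 / l) := by linarith
    _ = CS m / l ^ 2 * ((2 / 3) ^ m * (l * X0)) := by
        unfold CS
        have h : ((3:ℝ) / 2) ^ m * (2 / 3) ^ m = 1 := by
          rw [← mul_pow]; norm_num
        have e : 2 * (3 / 2) ^ m * (X1 / X0) / l ^ 2 * ((2 / 3) ^ m * (l * X0)) =
          (((3:ℝ) / 2) ^ m * (2 / 3) ^ m) * (2 * (X1 / X0 / l^2 * (l * X0))) := by ring
        rw [e, h, one_mul]
        congr 1
        field_simp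
    _ ≤ CS m / l ^ 2 * WA m d ts l := by
        apply mul_le_mul_of_nonneg_left hA
        have := CS_nonneg m
        positivity

lemma sq_integrable {f : F → ℝ} (hf : Continuous f) (hc : HasCompactSupport f) :
    Integrable fun y => f y ^ 2 := by
  apply Continuous.integrable_of_hasCompactSupport (f := fun y => f y ^ 2)
  · exact hf.pow 2
  · exact hc.comp_left (g := fun x : ℝ => x ^ 2) (by norm_num)

lemma fderiv_sq_integrable {f : F → ℝ} (hf : ContDiff ℝ ∞ f) (hc : HasCompactSupport f) :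
    Integrable fun y => ‖fderiv ℝ f y‖ ^ 2 := by
  apply Continuous.integrable_of_hasCompactSupport (f := fun y => ‖fderiv ℝ f y‖ ^ 2)
  · exact ((hf.continuous_fderiv (by simp)).norm).pow 2
  · exact (hc.fderiv (𝕜 := ℝ)).comp_left (g := fun A : F →L[ℝ] ℝ => ‖A‖ ^ 2) (by simp)

lemma trial_mass {φ : F → ℝ} (hφ : ContDiff ℝ ∞ φ) (hφc : HasCompactSupport φ) {d ts l : ℝ}
    (hl : 0 < l) (hd' : ts + l < d) :
    ∫ z, trial φ d ts l z ^ 2 = WA (Module.finrank ℝ F) d ts l * ∫ y, φ y ^ 2 := by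
  have hV := trial_contDiff hφ hl hd'
  have hVc := trial_cs hφc hl hd'
  have hV2 : Integrable (fun z => trial φ d ts l z ^ 2) (volume.prod volume) := by
    apply Continuous.integrable_of_hasCompactSupport (f := fun z => trial φ d ts l z ^ 2)
    · exact hV.continuous.pow 2
    · exact hVc.comp_left (g := fun x : ℝ => x ^ 2) (by norm_num)
  change ∫ z, trial φ d ts l z ^ 2 ∂(volume.prod volume) = _
  rw [integral_prod _ hV2]
  unfold WA
  rw [← integral_mul_const]
  refine integral_congr_ae (Eventually.of_forall fun t => ?_)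
  simp only [trial, mul_pow]
  rw [integral_const_mul]
  by_cases ht : t ∈ Icc ts (ts + l)
  · rw [scale_int (by linarith [ht.2]) (fun y => φ y ^ 2), mul_assoc]
  · rw [(amp_out hl ht).1]
    ring

lemma trial_en_slice {φ : F → ℝ} (hφ : ContDiff ℝ ∞ φ) (hφc : HasCompactSupport φ)
    {d ts l R : ℝ} (hd : 0 < d) (hl : 0 < l) (h1 : ts ≤ d / 4) (h2 : l ≤ d / 4)
    (hR : ∀ y ∈ tsupport φ, ‖y‖ ≤ R) (t : ℝ) :
    ∫ y, en (trial φ d ts l) (t, y) ≤
      (2 * ∫ y, φ y ^ 2) * ((deriv (amp ts l) t) ^ 2 * wgt (Module.finrank ℝ F) d ts t) +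
      ((1 + 5 * l / d + 8 * R ^ 2 / d ^ 2) * ∫ y, ‖fderiv ℝ φ y‖ ^ 2) *
        ((amp ts l t) ^ 2 * wgt (Module.finrank ℝ F) d ts t) := by
  have hd' : ts + l < d := by linarith
  have hV := trial_contDiff hφ hl hd'
  have hVc := trial_cs hφc hl hd'
  have hEc := en_cont hV
  have hEs := en_cs hVc
  set κ := 1 + 5 * l / d + 8 * R ^ 2 / d ^ 2 with hκ
  have hκn : 0 ≤ κ := by positivity
  by_cases ht : t ∈ Icc ts (ts + l)
  · have hdt : 0 < d - t := by linarith [ht.2]
    have hdts : 0 < d - ts := by linarith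
    have hσ : (d - ts) / (d - t) ≠ 0 := by positivity
    have i1 : Integrable fun y : F => 2 * (deriv (amp ts l) t)^2 *
        (φ (((d - ts) / (d - t)) • y))^2 :=
      ((sq_integrable hφ.continuous hφc).comp_smul hσ).const_mul _
    have i2 : Integrable fun y : F => κ * (amp ts l t)^2 *
        ‖fderiv ℝ φ (((d - ts) / (d - t)) • y)‖^2 :=
      ((fderiv_sq_integrable hφ hφc).comp_smul hσ).const_mul _
    calc ∫ y, en (trial φ d ts l) (t, y) ≤ ∫ y, (2 * (deriv (amp ts l) t)^2 *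
            (φ (((d - ts) / (d - t)) • y))^2 + κ * (amp ts l t)^2 *
            ‖fderiv ℝ φ (((d - ts) / (d - t)) • y)‖^2) := by
          apply integral_mono
          · apply Continuous.integrable_of_hasCompactSupport
            · exact hEc.comp (by fun_prop)
            · exact slice_cs hEs t
          · exact i1.add i2
          · intro y
            exact trial_en hφ hd hl h1 h2 hR t y
      _ = _ := by
          rw [integral_add i1 i2, integral_const_mul, integral_const_mul,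
            scale_int hdt (fun y => φ y ^ 2), scale_int hdt (fun y => ‖fderiv ℝ φ y‖ ^ 2)]
          ring
  · have e2 : ∀ y, en (trial φ d ts l) (t, y) = 0 := by
      intro y
      have h0 := (trial_eventually_zero (φ := φ) (d := d) hl (z := (t, y)) ht).fderiv_eq (𝕜 := ℝ)
      unfold en
      rw [h0]
      simp
    simp only [e2, integral_zero]
    have i0 : 0 ≤ ∫ y, φ y ^ 2 := integral_nonneg fun _ => sq_nonneg _
    have i1 : 0 ≤ ∫ y, ‖fderiv ℝ φ y‖ ^ 2 := integral_nonneg fun _ => sq_nonneg _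
    have i2 := wgt_nonneg (Module.finrank ℝ F) d ts t
    positivity

lemma trial_energy {φ : F → ℝ} (hφ : ContDiff ℝ ∞ φ) (hφc : HasCompactSupport φ)
    {d ts l R : ℝ} (hd : 0 < d) (hl : 0 < l) (h1 : ts ≤ d / 4) (h2 : l ≤ d / 4)
    (hR : ∀ y ∈ tsupport φ, ‖y‖ ≤ R) :
    ∫ z, en (trial φ d ts l) z ≤
      (2 * ∫ y, φ y ^ 2) * WB (Module.finrank ℝ F) d ts l +
      ((1 + 5 * l / d + 8 * R ^ 2 / d ^ 2) * ∫ y, ‖fderiv ℝ φ y‖ ^ 2) *
        WA (Module.finrank ℝ F) d ts l := by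
  have hd' : ts + l < d := by linarith
  have hV := trial_contDiff hφ hl hd'
  have hVc := trial_cs hφc hl hd'
  have hE : Integrable (en (trial φ d ts l)) (volume.prod volume) :=
    (en_cont hV).integrable_of_hasCompactSupport (en_cs hVc)
  have hS := trial_en_slice hφ hφc hd hl h1 h2 hR
  generalize (2 * ∫ y, φ y ^ 2) = c1 at *
  generalize ((1 + 5 * l / d + 8 * R ^ 2 / d ^ 2) * ∫ y, ‖fderiv ℝ φ y‖ ^ 2) = c2 at *
  have e : c1 * WB (Module.finrank ℝ F) d ts l + c2 * WA (Module.finrank ℝ F) d ts l =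
      ∫ t, (c1 * ((deriv (amp ts l) t) ^ 2 * wgt (Module.finrank ℝ F) d ts t) +
        c2 * ((amp ts l t) ^ 2 * wgt (Module.finrank ℝ F) d ts t)) := by
    rw [integral_add ((amp_dint _ d hl).const_mul _) ((amp_int _ d hl).const_mul _),
      integral_const_mul, integral_const_mul]
    rfl
  rw [e]
  change ∫ z, en (trial φ d ts l) z ∂(volume.prod volume) ≤ _
  rw [integral_prod _ hE]
  exact integral_mono hE.integral_prod_left
    (((amp_dint _ d hl).const_mul _).add ((amp_int _ d hl).const_mul _)) hS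

/-- The slice inequality. -/
theorem slice_ineq {Ω : Set (ℝ × F)} (hΩ : Convex ℝ Ω) {lam d : ℝ} (hd : 0 < d)
    (hp : ((d, 0) : ℝ × F) ∈ Ω)
    (H : ∀ V : ℝ × F → ℝ, ContDiff ℝ ∞ V → HasCompactSupport V → tsupport V ⊆ Ω →
      lam * ∫ z, V z ^ 2 ≤ ∫ z, en V z)
    {φ : F → ℝ} (hφ : ContDiff ℝ ∞ φ) (hφc : HasCompactSupport φ) {ts l R : ℝ} (hl : 0 < l)
    (h1 : ts ≤ d / 4) (h2 : l ≤ d / 4) (hφΩ : ∀ y ∈ tsupport φ, (ts, y) ∈ Ω)
    (hR : ∀ y ∈ tsupport φ, ‖y‖ ≤ R) :
    lam * ∫ y, φ y ^ 2 ≤ CS (Module.finrank ℝ F) / l ^ 2 * (∫ y, φ y ^ 2) +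
      (1 + 5 * l / d + 8 * R ^ 2 / d ^ 2) * ∫ y, ‖fderiv ℝ φ y‖ ^ 2 := by
  have hd' : ts + l < d := by linarith
  have hH := H _ (trial_contDiff hφ hl hd') (trial_cs hφc hl hd')
    (trial_subset hΩ hφc hl hd' hp hφΩ)
  rw [trial_mass hφ hφc hl hd'] at hH
  have hE := trial_energy hφ hφc hd hl h1 h2 hR
  have hA := WA_pos (Module.finrank ℝ F) hd hl h1 h2
  have hBA := WBA (Module.finrank ℝ F) hd hl h1 h2
  have hI : 0 ≤ ∫ y, φ y ^ 2 := integral_nonneg fun _ => sq_nonneg _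
  generalize WA (Module.finrank ℝ F) d ts l = A at *
  generalize WB (Module.finrank ℝ F) d ts l = B at *
  generalize CS (Module.finrank ℝ F) = c at *
  generalize (∫ y, φ y ^ 2) = I0 at *
  generalize (∫ y, ‖fderiv ℝ φ y‖ ^ 2) = I1 at *
  generalize (1 + 5 * l / d + 8 * R ^ 2 / d ^ 2) = κ at *
  have h5 : 2 * B * I0 ≤ c / l ^ 2 * A * I0 := mul_le_mul_of_nonneg_right hBA hI
  have hfin : A * (lam * I0) ≤ A * (c / l ^ 2 * I0 + κ * I1) := by
    have e : A * (c / l ^ 2 * I0 + κ * I1) = c / l ^ 2 * A * I0 + κ * I1 * A := by ring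
    rw [e]
    linarith
  exact le_of_mul_le_mul_left hfin hA

end Pool.Agent.U582.SN
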