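import Pool.Agent.U582.SN.Slab

set_option autoImplicit false
set_option linter.unusedSectionVars false

open MeasureTheory Set Filter Topology Metric
open scoped ENNReal NNReal ContDiff

namespace Pool.Agent.U582.SN

open Submodule

variable {E : Type*} [NormedAddCommGroup E] [InnerProductSpace ℝ E] [FiniteDimensional ℝ E]
  [MeasurableSpace E] [BorelSpace E]

lemma Jm_mp1 {e : E} (he : ‖e‖ = 1) :
    MeasurePreserving (Prod.map (fun t : ℝ => (LinearIsometryEquiv.toSpanUnitSingleton e he) t)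
      (fun y : (span ℝ {e})ᗮ => y)) ((volume : Measure ℝ).prod (volume : Measure (span ℝ {e})ᗮ))
      ((volume : Measure (span ℝ {e})).prod (volume : Measure (span ℝ {e})ᗮ)) :=
    (LinearIsometryEquiv.toSpanUnitSingleton e he).measurePreserving.prod
      (MeasurePreserving.id (volume : Measure (span ℝ {e})ᗮ))
lemma Jm_mp {e : E} (he : ‖e‖ = 1) (x0 : E) :
    MeasurePreserving (Jm e x0) (volume : Measure (ℝ × (span ℝ {e})ᗮ)) volume := by
  have h1 := Jm_mp1 he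
  have h2 := WithLp.volume_preserving_toLp (span ℝ {e}) (span ℝ {e})ᗮ
  have h3 := ((span ℝ {e}).orthogonalDecomposition.symm).measurePreserving
  have h4 := measurePreserving_add_left (volume : Measure E) x0
  have h5 := h4.comp (h3.comp (h2.comp h1))
  have e1 : Jm e x0 = (fun x => x0 + x) ∘ (span ℝ {e}).orthogonalDecomposition.symm ∘
      WithLp.toLp 2 ∘ Prod.map (fun t : ℝ => (LinearIsometryEquiv.toSpanUnitSingleton e he) t)
      (fun y : (span ℝ {e})ᗮ => y) := by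
    ext z
    simp [Jm]
  rw [e1]
  exact h5

lemma Jm_cont (e x0 : E) : Continuous (Jm e x0) := by
  unfold Jm
  fun_prop

lemma Ji_cont (e x0 : E) : Continuous (Ji e x0) := by
  unfold Ji
  fun_prop

lemma Ji_contDiff (e x0 : E) : ContDiff ℝ ∞ (Ji e x0) := by
  unfold Ji
  apply ContDiff.prodMk
  · exact contDiff_const.inner ℝ (contDiff_id.sub contDiff_const)
  · exact ((span ℝ {e})ᗮ.orthogonalProjectionOnto).contDiff.comp (contDiff_id.sub contDiff_const)

lemma Jm_contDiff (e x0 : E) : ContDiff ℝ ∞ (Jm e x0) := by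
  have : Jm e x0 = fun z => x0 + Jd e z := by
    ext z
    simp [Jm, Jd]
  rw [this]
  exact contDiff_const.add (Jd e).contDiff

noncomputable def JmH {e : E} (he : ‖e‖ = 1) (x0 : E) : (ℝ × (span ℝ {e})ᗮ) ≃ₜ E where
  toFun := Jm e x0
  invFun := Ji e x0
  left_inv := Ji_Jm he x0
  right_inv := Jm_Ji he x0
  continuous_toFun := Jm_cont e x0
  continuous_invFun := Ji_cont e x0

lemma Jm_integral {e : E} (he : ‖e‖ = 1) (x0 : E) (f : E → ℝ) :
    ∫ z, f (Jm e x0 z) = ∫ x, f x :=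
  (Jm_mp he x0).integral_comp (JmH he x0).measurableEmbedding f

lemma norm_split {e : E} (he : ‖e‖ = 1) (A : E →L[ℝ] ℝ) :
    ‖A‖ ^ 2 = (A e) ^ 2 + ‖A.comp (span ℝ {e})ᗮ.subtypeL‖ ^ 2 := by
  set g : E := (InnerProductSpace.toDual ℝ E).symm A with hg
  set h : (span ℝ {e})ᗮ := (span ℝ {e})ᗮ.orthogonalProjectionOnto g with hh
  have hA : ∀ v, A v = inner ℝ g v := fun v => by
    rw [hg, InnerProductSpace.toDual_symm_apply]
  have hd : (inner ℝ e g) • e + (h : E) = g := decomp he g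
  have n1 : ‖A‖ = ‖g‖ := ((InnerProductSpace.toDual ℝ E).symm.norm_map A).symm
  have n2 : ‖A.comp (span ℝ {e})ᗮ.subtypeL‖ = ‖h‖ := by
    have h1 : A.comp (span ℝ {e})ᗮ.subtypeL = innerSL ℝ h := by
      ext y
      have h0 : inner ℝ ((inner ℝ e g) • e) (y : E) = 0 := by
        rw [inner_smul_left, inner_perp, mul_zero]
      have h3 : A (y : E) = inner ℝ (h : E) (y : E) := by
        rw [hA, ← hd, inner_add_left]
        rw [h0, zero_add]
      exact h3
    rw [h1]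
    exact innerSL_apply_norm ℝ h
  have n3 : ‖g‖ ^ 2 = (inner ℝ e g) ^ 2 + ‖h‖ ^ 2 := by
    have h4 : ‖g‖ ^ 2 = ‖(inner ℝ e g) • e + (h : E)‖ ^ 2 := by rw [hd]
    have h5 : inner ℝ ((inner ℝ e g) • e) (h : E) = 0 := by
      rw [inner_smul_left, inner_perp, mul_zero]
    rw [h4, norm_add_sq_real, h5, norm_smul, he, mul_pow, Real.norm_eq_abs, sq_abs]
    simp
  rw [n1, n2, n3, hA, real_inner_comm]

lemma Jd_one (e : E) : Jd e (1, 0) = e := by simp [Jd]

lemma Jd_inr (e : E) : (Jd e).comp (ContinuousLinearMap.inr ℝ ℝ _) = (span ℝ {e})ᗮ.subtypeL := by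
  ext y
  simp [Jd]

lemma fderiv_comp_Jm {v : E → ℝ} (hv : ContDiff ℝ ∞ v) (e x0 : E) (z : ℝ × (span ℝ {e})ᗮ) :
    fderiv ℝ (fun z => v (Jm e x0 z)) z = (fderiv ℝ v (Jm e x0 z)).comp (Jd e) := by
  have h1 : HasFDerivAt v (fderiv ℝ v (Jm e x0 z)) (Jm e x0 z) :=
    (hv.differentiable (by simp)).differentiableAt.hasFDerivAt
  exact (h1.comp z (Jm_hasFDerivAt e x0 z)).fderiv

lemma enF_comp_Jm {v : E → ℝ} (hv : ContDiff ℝ ∞ v) {e : E} (he : ‖e‖ = 1) (x0 : E)
    (z : ℝ × (span ℝ {e})ᗮ) :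
    enF (fun z => v (Jm e x0 z)) z =
      ‖fderiv ℝ v (Jm e x0 z)‖ ^ 2 - (fderiv ℝ v (Jm e x0 z) e) ^ 2 := by
  unfold enF
  rw [fderiv_comp_Jm hv, ContinuousLinearMap.comp_assoc, Jd_inr, norm_split he]
  ring

lemma en_comp_Jm {v : E → ℝ} (hv : ContDiff ℝ ∞ v) {e : E} (he : ‖e‖ = 1) (x0 : E)
    (z : ℝ × (span ℝ {e})ᗮ) :
    en (fun z => v (Jm e x0 z)) z = ‖fderiv ℝ v (Jm e x0 z)‖ ^ 2 := by
  have h := enF_comp_Jm hv he x0 z
  unfold enF at h
  unfold en
  rw [h, fderiv_comp_Jm hv, ContinuousLinearMap.comp_apply, Jd_one]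
  ring


end Pool.Agent.U582.SN
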