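import Pool.Agent.U582.SN.Trans

set_option autoImplicit false
set_option linter.unusedSectionVars false

open MeasureTheory Set Filter Topology Metric
open scoped ENNReal NNReal ContDiff

namespace Pool.Agent.U582.SN

open Submodule

variable {E : Type*} [NormedAddCommGroup E] [InnerProductSpace ℝ E] [FiniteDimensional ℝ E]
  [MeasurableSpace E] [BorelSpace E]

/-- The slab inequality in a Euclidean space. -/
theorem slab_euclid {Ω : Set E} (hΩ : Convex ℝ Ω) {lam : ℝ}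
    (H : ∀ v : E → ℝ, ContDiff ℝ ∞ v → HasCompactSupport v → tsupport v ⊆ Ω →
      lam * ∫ x, v x ^ 2 ≤ ∫ x, ‖fderiv ℝ v x‖ ^ 2)
    {e : E} (he : ‖e‖ = 1) (x0 : E) {d : ℝ} (hd : 0 < d) (hp : x0 + d • e ∈ Ω)
    {w : E → ℝ} (hw : ContDiff ℝ ∞ w) (hwc : HasCompactSupport w) (hwΩ : tsupport w ⊆ Ω)
    {l R : ℝ} (hl : 0 < l) (h2 : l ≤ d / 4) (hRd : R ≤ d / 4)
    (hR : ∀ x ∈ tsupport w, ‖x - x0‖ ≤ R) :
    lam * ∫ x, w x ^ 2 ≤ CS (Module.finrank ℝ (span ℝ {e})ᗮ) / l ^ 2 * (∫ x, w x ^ 2) +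
      (1 + 5 * l / d + 8 * R ^ 2 / d ^ 2) *
        ∫ x, (‖fderiv ℝ w x‖ ^ 2 - (fderiv ℝ w x e) ^ 2) := by
  set Ω' : Set (ℝ × (span ℝ {e})ᗮ) := Jm e x0 ⁻¹' Ω with hΩ'
  have hconv : Convex ℝ Ω' := by
    have : Ω' = (Jd e) ⁻¹' ((fun x => x0 + x) ⁻¹' Ω) := by
      ext z
      simp [hΩ', Jm, Jd]
    rw [this]
    exact (hΩ.translate_preimage_right x0).linear_preimage (Jd e).toLinearMap
  have hp' : ((d, 0) : ℝ × (span ℝ {e})ᗮ) ∈ Ω' := by
    simpa [hΩ', Jm] using hp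
  have hts : ∀ v : E → ℝ, tsupport (fun z => v (Jm e x0 z)) = Jm e x0 ⁻¹' tsupport v := by
    intro v
    exact tsupport_comp_eq_preimage v (JmH he x0)
  have H' : ∀ V : ℝ × (span ℝ {e})ᗮ → ℝ, ContDiff ℝ ∞ V → HasCompactSupport V →
      tsupport V ⊆ Ω' → lam * ∫ z, V z ^ 2 ≤ ∫ z, en V z := by
    intro V hV hVc hVΩ
    set v : E → ℝ := fun x => V (Ji e x0 x) with hv
    have hVv : V = fun z => v (Jm e x0 z) := by
      ext z
      rw [hv]
      simp only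
      rw [Ji_Jm he]
    have hvs : ContDiff ℝ ∞ v := hV.comp (Ji_contDiff e x0)
    have hvc : HasCompactSupport v := hVc.comp_homeomorph (JmH he x0).symm
    have hvΩ : tsupport v ⊆ Ω := by
      intro x hx
      have h1 := hts v
      have h2 : Ji e x0 x ∈ Jm e x0 ⁻¹' tsupport v := by
        rw [mem_preimage, Jm_Ji he]
        exact hx
      rw [← h1, ← hVv] at h2
      have h3 := hVΩ h2
      rw [hΩ', mem_preimage, Jm_Ji he] at h3
      exact h3
    have h4 := H v hvs hvc hvΩ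
    rw [← Jm_integral he x0 (fun x => v x ^ 2), ← Jm_integral he x0 (fun x => ‖fderiv ℝ v x‖ ^ 2)]
      at h4
    have e1 : ∀ z, en V z = ‖fderiv ℝ v (Jm e x0 z)‖ ^ 2 := by
      intro z
      conv_lhs => rw [hVv]
      exact en_comp_Jm hvs he x0 z
    simp only [e1]
    rw [hVv]
    exact h4
  have hRz : ∀ z ∈ tsupport (fun z => w (Jm e x0 z)), z.1 ≤ R ∧ ‖z.2‖ ≤ R := by
    intro z hz
    rw [hts] at hz
    have h1 := hR _ hz
    have h3 : ‖Jm e x0 z - x0‖ ^ 2 = z.1 ^ 2 + ‖z.2‖ ^ 2 := by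
      unfold Jm
      rw [add_sub_cancel_left, norm_add_sq_real, inner_smul_left, inner_perp, norm_smul, he]
      simp
    have h5 : 0 ≤ R := (norm_nonneg _).trans h1
    have h6 : ‖Jm e x0 z - x0‖ ^ 2 ≤ R ^ 2 := pow_le_pow_left₀ (norm_nonneg _) h1 2
    rw [h3] at h6
    constructor
    · nlinarith [sq_nonneg ‖z.2‖]
    · nlinarith [sq_nonneg z.1, norm_nonneg z.2]
  have hmain := slab_ineq hconv hd hp' H' (W := fun z => w (Jm e x0 z))
    (hw.comp (Jm_contDiff e x0)) (hwc.comp_homeomorph (JmH he x0))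
    (by rw [hts]; exact preimage_mono hwΩ) hl h2 hRd hRz
  simp only [enF_comp_Jm hw he] at hmain
  rw [Jm_integral he x0 (fun x => w x ^ 2),
    Jm_integral he x0 (fun x => ‖fderiv ℝ w x‖ ^ 2 - (fderiv ℝ w x e) ^ 2)] at hmain
  exact hmain

end Pool.Agent.U582.SN
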